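import Pool.Agent.Work.MP_d02fb9_lc.Main
import Mathlib.SetTheory.Cardinal.Pigeonhole

/-!
Club guessing with approachable initial segments.
-/

namespace Pool.Agent.Work.MP_d02fb9_lc.S

open Cardinal Set Order Pool.Agent.Lib.ClubGuess

lemma exists_surj {α β : Type} [Nonempty α] {s : Set α} (h : #s ≤ #β) :
    ∃ π : β → α, ∀ a ∈ s, ∃ b, π b = a := by
  obtain ⟨e⟩ := h
  exact ⟨Function.extend e Subtype.val fun _ => Classical.arbitrary α,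
    fun a ha => ⟨e ⟨a, ha⟩, e.injective.extend_apply _ _ _⟩⟩

lemma exists_cov_family {ρ : Cardinal.{0}} (hcov : Cov' ρ) {α : Type} [Nonempty α] {X : Set α}
    (hX : #X ≤ ρ) : ∃ u : ρ.ord.ToType → Set α, (∀ γ, (u γ).Countable) ∧ (∀ γ, u γ ⊆ X) ∧
      ∀ s ⊆ X, s.Countable → ∃ γ, s ⊆ u γ := by
  obtain ⟨U, h1, -, h3⟩ := hcov.cov
  obtain ⟨π, hπ⟩ := exists_surj (β := ρ.ord.ToType) (s := X) (by rwa [mk_ord_toType])
  let ty : ρ.ord.ToType → Ordinal.{0} := fun r => Ordinal.typein (α := ρ.ord.ToType) (· < ·) r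
  have hty : Function.Injective ty := Ordinal.typein_injective _
  refine ⟨fun γ => π '' (ty ⁻¹' U (ty γ)) ∩ X,
    fun γ => (((h1 _).preimage hty).image π).mono inter_subset_left,
    fun γ => inter_subset_right, fun s hs hsc => ?_⟩
  choose r hr using fun a : s => hπ a.1 (hs a.2)
  have := hsc.to_subtype
  obtain ⟨γ, hγ, h⟩ := h3 (ty '' range r) (by
    rintro _ ⟨b, -, rfl⟩
    exact Ordinal.typein_lt_self b) ((countable_range r).image _)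
  obtain ⟨g, rfl⟩ := Ordinal.typein_surj (α := ρ.ord.ToType) (· < ·)
    (by rwa [Ordinal.type_toType] : γ < _)
  exact ⟨g, fun a ha => ⟨⟨r ⟨a, ha⟩, h ⟨_, ⟨_, rfl⟩, rfl⟩, hr ⟨a, ha⟩⟩, hs ha⟩⟩

theorem appr_guess {μ : Cardinal.{0}} (hμ : ℵ₀ ≤ μ) (hcov : Cov' (succ (succ μ)))
    {S : Type} [LinearOrder S] [WellFoundedLT S] [IsRegularCardinalOrder S]
    (hS : #S = succ (succ (succ μ))) :
    ∃ qq GG : S → Set S, (∀ x, (GG x).Countable) ∧ (∀ x, GG x ⊆ Iio x) ∧ (∀ x, qq x ⊆ GG x) ∧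
      ∀ D : Set S, IsClub D → ∃ C ⊆ D, (∀ k ∈ C, ∃ k' ∈ C, k < k') ∧
        (∀ s : Set S, #s ≤ μ → (∀ a ∈ s, ∃ k ∈ C, a < k) → ∃ k ∈ C, ∀ a ∈ s, a < k) ∧
        ∀ s : Set S, s.Countable → (∀ a ∈ s, ∃ k ∈ C, a < k) →
          ∃ x, (∃ k ∈ C, x < k) ∧ s ⊆ GG x ∧ qq x = C ∩ GG x := by
  classical
  have hμ1 : ℵ₀ ≤ succ μ := hμ.trans (le_succ μ)
  have hμ2 : ℵ₀ ≤ succ (succ μ) := hμ1.trans (le_succ _)
  let T := (succ μ).ord.ToType
  let R := (succ (succ μ)).ord.ToType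
  have : IsRegularCardinalOrder T := isRegularCardinalOrder_toType (isRegular_succ hμ)
  have : IsRegularCardinalOrder R := isRegularCardinalOrder_toType (isRegular_succ hμ1)
  have hT : #T = succ μ := mk_ord_toType _
  have hR : #R = succ (succ μ) := mk_ord_toType _
  have hT0 : ℵ₀ < #T := hT ▸ hμ.trans_lt (lt_succ μ)
  have hTR : #T < #R := by rw [hT, hR]; exact lt_succ _
  have hRS : #R < #S := by rw [hR, hS]; exact lt_succ _
  have hR0 : ℵ₀ < #R := hT0.trans hTR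
  have hS0 : ℵ₀ < #S := hR0.trans hRS
  have hSne : Nonempty S := mk_ne_zero_iff.1 (aleph0_pos.trans hS0).ne'
  have hRne : Nonempty R := mk_ne_zero_iff.1 (aleph0_pos.trans hR0).ne'
  have hIio : ∀ α : S, #(Iio α) ≤ #R := fun α => by
    rw [hR, ← lt_succ_iff, ← hS]
    exact mk_Iio_lt' α
  choose π hπ using fun α : S => exists_surj (hIio α)
  choose! idx hidx using hπ
  let a : S → R → Set S := fun α ξ => π α '' Iio ξ ∩ Iio α
  let J : Set S := {j | ∃ f : T → S, IsNormal f ∧ IsLUB (range f) j}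
  choose f hf hfj using fun j : J => j.2
  have hflt : ∀ (j : J) t, f j t < j.1 := by
    intro j t
    obtain ⟨t', ht'⟩ := exists_gt' hT0.le t
    exact ((hf j).strictMono ht').trans_le ((hfj j).1 ⟨t', rfl⟩)
  have hA : ∀ j : J, ∃ ξ, range (f j) ⊆ a j.1 ξ ∧ ∀ α ∈ a j.1 ξ, a α ξ = a j.1 ξ ∩ Iio α := by
    intro j
    have h1 : ∀ η : R, ∃ ζ, (∀ η' ≤ η, ∀ η'' ≤ η, idx j.1 (π (π j.1 η') η'') < ζ ∧
        idx (π j.1 η') (π j.1 η'') < ζ) ∧ ∀ t, idx j.1 (f j t) < ζ := by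
      intro η
      have h2 : #(Iic η) * #(Iic η) < #R :=
        mul_lt_of_lt hR0.le (mk_Iic_lt hR0.le η) (mk_Iic_lt hR0.le η)
      obtain ⟨ζ, hζ⟩ := exists_gt_of_mk_lt (α := R)
        (s := (image2 (fun η' η'' => idx j.1 (π (π j.1 η') η'')) (Iic η) (Iic η) ∪
          image2 (fun η' η'' => idx (π j.1 η') (π j.1 η'')) (Iic η) (Iic η)) ∪
          range fun t => idx j.1 (f j t))
        ((mk_union_le _ _).trans_lt (add_lt_of_lt hR0.le ((mk_union_le _ _).trans_lt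
          (add_lt_of_lt hR0.le (mk_image2_le.trans_lt h2) (mk_image2_le.trans_lt h2)))
          (mk_range_le.trans_lt hTR)))
      exact ⟨ζ, fun η' h' η'' h'' => ⟨hζ _ (Or.inl (Or.inl ⟨_, h', _, h'', rfl⟩)),
        hζ _ (Or.inl (Or.inr ⟨_, h', _, h'', rfl⟩))⟩, fun t => hζ _ (Or.inr ⟨t, rfl⟩)⟩
    choose φ hφ1 hφ2 using h1
    obtain ⟨D, hD, hD'⟩ := exists_club_lim hR0 φ
    obtain ⟨ξ, hξ⟩ := hD.nonempty
    obtain ⟨hl, hc⟩ := hD' ξ hξ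
    obtain ⟨η₀, hη₀⟩ := not_isMin_iff.1 hl.not_isMin
    refine ⟨ξ, ?_, ?_⟩
    · rintro _ ⟨t, rfl⟩
      exact ⟨⟨_, (hφ2 η₀ t).trans (hc _ hη₀), hidx _ _ (hflt j t)⟩, hflt j t⟩
    · rintro _ ⟨⟨η', hη', rfl⟩, hlt⟩
      ext b
      constructor
      · rintro ⟨⟨η'', hη'', rfl⟩, hb⟩
        have hb' := (mem_Iio.1 hb).trans hlt
        exact ⟨⟨⟨_, (hφ1 (max η' η'') η' (le_max_left _ _) η'' (le_max_right _ _)).1.trans
          (hc _ (max_lt hη' hη'')), hidx _ _ hb'⟩, hb'⟩, hb⟩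
      · rintro ⟨⟨⟨η'', hη'', rfl⟩, -⟩, hb⟩
        exact ⟨⟨_, (hφ1 (max η' η'') η' (le_max_left _ _) η'' (le_max_right _ _)).2.trans
          (hc _ (max_lt hη' hη'')), hidx _ _ hb⟩, hb⟩
  choose ξ hξ1 hξ2 using hA
  choose g hg using fun (E : Set S) (α : S) =>
    exists_isLUB (s := E ∩ Iio α) ⟨α, fun b hb => le_of_lt hb.2⟩
  have hgle : ∀ E α, g E α ≤ α := fun E α => (hg E α).2 fun b hb => le_of_lt hb.2
  have hgmono : ∀ E E' α α', E ⊆ E' → α ≤ α' → g E α ≤ g E' α' := fun E E' α α' h h' =>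
    (hg E α).2 fun b hb => (hg E' α').1 ⟨h hb.1, (mem_Iio.1 hb.2).trans_le h'⟩
  have hgmem : ∀ E α, IsClub E → (E ∩ Iio α).Nonempty → g E α ∈ E := fun E α hE hne =>
    hE.isLUB_mem inter_subset_left hne (hg E α)
  let gl : Set S → Set S → Set S := fun E A => {c | ∃ α ∈ A, (E ∩ Iio α).Nonempty ∧ c = g E α}
  have hJ : ∀ E : Set S, IsClub E → ∃ j : J, ∀ i < j.1, ∃ k ∈ E, i < k ∧ k < j.1 := by
    intro E hE
    have hlt : Ordinal.type (α := T) (· < ·) < Ordinal.type (α := S) (· < ·) := by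
      rw [← ord_cardinalMk, ← ord_cardinalMk, ord_lt_ord]
      exact hTR.trans hRS
    obtain ⟨ι⟩ : Nonempty (T <i S) := Ordinal.type_lt_iff.1 hlt
    have hg := hE.isNormal_enum
    have hι : IsLUB (range ι) ι.top := by
      refine ⟨?_, fun c hc => ?_⟩
      · rintro _ ⟨t, rfl⟩
        exact (ι.lt_top t).le
      · by_contra! hlt'
        obtain ⟨t, rfl⟩ := ι.mem_range_of_rel_top hlt'
        obtain ⟨t', ht'⟩ := exists_gt' hT0.le t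
        exact (hc ⟨t', rfl⟩).not_gt (ι.strictMono ht')
    have hne : Nonempty T := mk_ne_zero_iff.1 (aleph0_pos.trans hT0).ne'
    have hl := hg.map_isLUB hι (range_nonempty _)
    rw [← range_comp] at hl
    refine ⟨⟨_, _, hg.comp ι.isNormal, hl⟩, fun i hi => ?_⟩
    obtain ⟨_, ⟨t, rfl⟩, ht⟩ := (lt_isLUB_iff hl).1 hi
    exact ⟨_, (enum E hE.isCofinal (ι t)).2, ht, hg.strictMono (ι.lt_top t)⟩
  have main : ∃ E : Set S, IsClub E ∧ ∀ D : Set S, IsClub D →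
      ∃ j : J, (∀ i < j.1, ∃ k ∈ E, i < k ∧ k < j.1) ∧ gl E (a j.1 (ξ j)) ⊆ D := by
    by_contra! hcon
    choose! Dof hD1 hD2 using hcon
    obtain ⟨E, hE⟩ := exists_rec (S := R) (β := Set S)
      (fun γ m => ⋂ γ' : Iio γ, m γ'.1 ∩ Dof (m γ'.1)) (fun γ m m' h => by
        congr 1
        funext γ'
        rw [h γ'.1 γ'.2])
    have hEc : ∀ γ, IsClub (E γ) := by
      intro γ
      induction γ using WellFoundedLT.induction with
      | ind γ IH =>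
      rw [hE γ]
      refine IsClub.iInter (cof_ne_aleph0 hS0) ?_ (fun γ' =>
        (IH γ'.1 γ'.2).inter (cof_ne_aleph0 hS0) (hD1 _ (IH γ'.1 γ'.2)))
      rw [cof_eq_cardinalMk, lift_id, lift_id]
      exact (mk_set_le _).trans_lt hRS
    have hEs : IsClub (⋂ γ, E γ) := by
      refine IsClub.iInter (cof_ne_aleph0 hS0) ?_ hEc
      rw [cof_eq_cardinalMk, lift_id, lift_id]
      exact hRS
    obtain ⟨j, hj⟩ := hJ _ hEs
    have h1 : ∀ γ, ∃ α : a j.1 (ξ j), (E γ ∩ Iio α.1).Nonempty ∧ g (E γ) α.1 ∉ Dof (E γ) := by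
      intro γ
      obtain ⟨_, ⟨α, h1, h2, rfl⟩, h3⟩ := not_subset.1 (hD2 (E γ) (hEc γ) j fun i hi => by
        obtain ⟨k, hk, h⟩ := hj i hi
        exact ⟨k, mem_iInter.1 hk γ, h⟩)
      exact ⟨⟨α, h1⟩, h2, h3⟩
    choose t ht1 ht2 using h1
    obtain ⟨α, hα⟩ := infinite_pigeonhole t hR0.le (by
      rw [hR, (isRegular_succ hμ1).cof_ord, ← hR]
      exact ((mk_le_mk_of_subset inter_subset_left).trans mk_image_le).trans_lt (mk_Iio_lt' _))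
    have hunb : ∀ γ, ∃ γ', t γ' = α ∧ γ < γ' := by
      intro γ
      by_contra! h
      have : t ⁻¹' {α} ⊆ Iic γ := fun γ' h' => h γ' h'
      exact (hα.ge.trans (mk_le_mk_of_subset this)).not_gt (mk_Iic_lt hR0.le γ)
    obtain ⟨γ₀⟩ := hRne
    obtain ⟨γ₁, hγ₁, -⟩ := hunb γ₀
    obtain ⟨_, ⟨γ, hγ, rfl⟩, hmin⟩ := wellFounded_lt.has_min
      ((fun γ => g (E γ) α.1) '' {γ | t γ = α}) ⟨_, γ₁, hγ₁, rfl⟩
    obtain ⟨γ', h2, h3⟩ := hunb γ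
    have h4 : E γ' ⊆ E γ ∩ Dof (E γ) := by
      rw [hE γ']
      exact iInter_subset (fun γ'' : Iio γ' => E γ''.1 ∩ Dof (E γ''.1)) ⟨γ, h3⟩
    have h5 : g (E γ') α.1 = g (E γ) α.1 :=
      (hgmono _ _ _ _ (h4.trans inter_subset_left) le_rfl).antisymm
        (not_lt.1 (hmin _ ⟨γ', h2, rfl⟩))
    have h6 := ht2 γ
    rw [show t γ = α from hγ, ← h5] at h6
    exact h6 (h4 (hgmem _ _ (hEc γ') (h2 ▸ ht1 γ'))).2
  obtain ⟨E, hE, hguess⟩ := main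
  choose u hu1 hu2 hu3 using fun α : S => exists_cov_family hcov ((hIio α).trans hR.le)
  obtain ⟨e⟩ : Nonempty (S ≃ S × R × R × S) := by
    rw [← Cardinal.eq]
    simp only [mk_prod, lift_id]
    rw [mul_eq_right hS0.le hRS.le (aleph0_pos.trans hR0).ne',
      mul_eq_right hS0.le hRS.le (aleph0_pos.trans hR0).ne', mul_eq_self hS0.le]
  have hx : ∀ α η γ, ∃ x, α < x ∧ ∃ y, e x = (α, η, γ, y) := by
    intro α η γ
    by_contra! h
    have h1 : range (fun y => e.symm (α, η, γ, y)) ⊆ Iic α := by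
      rintro _ ⟨y, rfl⟩
      by_contra h'
      exact h _ (not_le.1 h') y (e.apply_symm_apply _)
    have h2 := mk_le_mk_of_subset h1
    rw [mk_range_eq _ (fun y y' h => by simpa using h)] at h2
    exact h2.not_gt (mk_Iic_lt hS0.le α)
  choose xx hxx1 yy hxx2 using hx
  have hφ : ∀ α, ∃ b, ∀ η γ, xx α η γ < b := by
    intro α
    obtain ⟨b, hb⟩ := exists_gt_of_mk_lt (s := range fun p : R × R => xx α p.1 p.2)
      (mk_range_le.trans_lt (by rw [mk_prod, lift_id, mul_eq_self hR0.le]; exact hRS))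
    exact ⟨b, fun η γ => hb _ ⟨(η, γ), rfl⟩⟩
  choose φ hφ using hφ
  refine ⟨fun x => gl E (a (e x).1 (e x).2.1) ∩ (u (g E (e x).1) (e x).2.2.1 ∩ Iio x),
    fun x => u (g E (e x).1) (e x).2.2.1 ∩ Iio x, fun x => (hu1 _ _).mono inter_subset_left,
    fun x => inter_subset_right, fun x => inter_subset_right, fun D hD => ?_⟩
  obtain ⟨j, hj1, hj2⟩ := hguess _ (hD.inter (cof_ne_aleph0 hS0) (isClub_closure hS0 φ))
  have hCof : ∀ i < j.1, ∃ k ∈ gl E (a j.1 (ξ j)), i < k := by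
    intro i hi
    obtain ⟨k, hk, h1, h2⟩ := hj1 i hi
    obtain ⟨_, ⟨t, rfl⟩, ht⟩ := (lt_isLUB_iff (hfj j)).1 h2
    exact ⟨_, ⟨f j t, hξ1 j ⟨t, rfl⟩, ⟨k, hk, ht⟩, rfl⟩, h1.trans_le ((hg E _).1 ⟨hk, ht⟩)⟩
  have hbd : ∀ s : Set S, #s ≤ μ → (∀ b ∈ s, ∃ k ∈ gl E (a j.1 (ξ j)), b < k) →
      ∃ k ∈ gl E (a j.1 (ξ j)), ∀ b ∈ s, b < k := by
    intro s hs h
    have h1 : ∀ b : s, ∃ t, b.1 < f j t := by
      intro b
      obtain ⟨_, ⟨α, hα, -, rfl⟩, hb⟩ := h b.1 b.2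
      obtain ⟨_, ⟨t, rfl⟩, ht⟩ := (lt_isLUB_iff (hfj j)).1 ((hb.trans_le (hgle E α)).trans hα.2)
      exact ⟨t, ht⟩
    choose t ht using h1
    obtain ⟨t₀, ht₀⟩ := exists_gt_of_mk_lt (s := range t)
      (mk_range_le.trans_lt (hs.trans_lt (hT ▸ lt_succ μ)))
    obtain ⟨k, hk, h2⟩ := hCof _ (hflt j t₀)
    exact ⟨k, hk, fun b hb =>
      ((ht ⟨b, hb⟩).trans ((hf j).strictMono (ht₀ _ ⟨_, rfl⟩))).trans h2⟩
  refine ⟨gl E (a j.1 (ξ j)), hj2.trans inter_subset_left, ?_, hbd, fun s hsc hs => ?_⟩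
  · rintro _ ⟨α, hα, -, rfl⟩
    exact hCof _ ((hgle E α).trans_lt hα.2)
  obtain ⟨_, ⟨α, hα, -, rfl⟩, h1⟩ := hbd s ((le_aleph0_iff_set_countable.2 hsc).trans hμ) hs
  obtain ⟨γ, hγ⟩ := hu3 (g E α) s h1 hsc
  obtain ⟨k, hk, hαk⟩ := hCof α hα.2
  refine ⟨xx α (ξ j) γ, ⟨k, hk, (hφ α _ _).trans ((hj2 hk).2 α hαk)⟩, ?_, ?_⟩
  · simp only [hxx2]
    exact fun b hb => ⟨hγ hb, ((h1 b hb).trans_le (hgle E α)).trans (hxx1 _ _ _)⟩
  · simp only [hxx2]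
    rw [hξ2 j α hα]
    ext c
    constructor
    · rintro ⟨⟨β, hβ, h2, rfl⟩, h3⟩
      exact ⟨⟨β, hβ.1, h2, rfl⟩, h3⟩
    · rintro ⟨⟨β, hβ, h2, rfl⟩, h3⟩
      refine ⟨⟨β, ⟨hβ, ?_⟩, h2, rfl⟩, h3⟩
      by_contra h4
      exact (mem_Iio.1 (hu2 _ _ h3.1)).not_ge (hgmono _ _ _ _ subset_rfl (not_lt.1 h4))

end Pool.Agent.Work.MP_d02fb9_lc.S
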