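import Pool.Agent.Work.MP_d02fb9_lc.S.Pcf

/-!
Characteristic functions of chains are finite maxima of canonical functions.
-/

namespace Pool.Agent.Work.MP_d02fb9_lc.S

open Cardinal Set Order Filter Pool.Agent.Lib.ClubGuess

/-- Least strict upper bound of the part of `Z` below `t`. -/
noncomputable def chs (Z : Set Ordinal.{0}) (t : Cardinal.{0}) : Ordinal.{0} :=
  sInf {β | ∀ a ∈ Z, a < t.ord → a < β}

lemma lt_chs {Z : Set Ordinal.{0}} {t : Cardinal.{0}} {a : Ordinal.{0}} (ha : a ∈ Z)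
    (h : a < t.ord) : a < chs Z t :=
  csInf_mem (s := {β | ∀ a ∈ Z, a < t.ord → a < β}) ⟨t.ord, fun _ _ h => h⟩ a ha h

lemma chs_le {Z : Set Ordinal.{0}} {t : Cardinal.{0}} {β : Ordinal.{0}}
    (h : ∀ a ∈ Z, a < t.ord → a < β) : chs Z t ≤ β :=
  csInf_le' h

lemma chs_mono {Z Z' : Set Ordinal.{0}} (h : Z ⊆ Z') (t : Cardinal.{0}) : chs Z t ≤ chs Z' t :=
  chs_le fun _ ha h' => lt_chs (h ha) h'

lemma chs_lt {Z : Set Ordinal.{0}} {t σ : Cardinal.{0}} (ht : t.IsRegular) (hσ : σ < t)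
    (hZ : #Z ≤ Cardinal.lift.{1} σ) : chs Z t < t.ord := by
  obtain ⟨β, hβ, h⟩ := exists_bound ht (s := Z ∩ Iio t.ord)
    (((mk_le_mk_of_subset inter_subset_left).trans hZ).trans_lt (lift_lt.2 hσ)) (fun a ha => ha.2)
  exact (chs_le fun a ha ha' => h a ⟨ha, ha'⟩).trans_lt hβ

/-- Maximum of a list of values. -/
noncomputable def valL {α : Type 1} (F : α → Ordinal.{0}) : List α → Ordinal.{0}
  | [] => 0
  | p :: L => max (F p) (valL F L)

lemma le_valL {α : Type 1} (F : α → Ordinal.{0}) {L : List α} {p : α} (h : p ∈ L) :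
    F p ≤ valL F L := by
  induction L with
  | nil => simp at h
  | cons q L ih =>
    rcases List.mem_cons.1 h with rfl | h
    · exact le_max_left _ _
    · exact (ih h).trans (le_max_right _ _)

lemma valL_le {α : Type 1} (F : α → Ordinal.{0}) {L : List α} {a : Ordinal.{0}}
    (h : ∀ p ∈ L, F p ≤ a) : valL F L ≤ a := by
  induction L with
  | nil => exact zero_le
  | cons q L ih =>
    exact max_le (h q List.mem_cons_self) (ih fun p hp => h p (List.mem_cons_of_mem _ hp))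

lemma mk_lists_le {α : Type 1} {P : Set α} {c : Cardinal.{1}} (hc : ℵ₀ ≤ c) (hP : #P ≤ c) :
    #{L : List α | ∀ p ∈ L, p ∈ P} ≤ c := by
  have : {L : List α | ∀ p ∈ L, p ∈ P} ⊆ range fun L : List P => L.map Subtype.val :=
    fun L hL => ⟨L.attachWith _ hL, by simp⟩
  exact (mk_le_mk_of_subset this).trans
    (mk_range_le.trans ((mk_list_le_max _).trans (max_le hc hP)))

lemma mk_prod_le' {α β : Type 1} {P : Set α} {Q : Set β} {c : Cardinal.{1}} (hc : ℵ₀ ≤ c)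
    (hP : #P ≤ c) (hQ : #Q ≤ c) : #(P ×ˢ Q) ≤ c := by
  rw [mk_setProd]
  exact (mul_le_mul' hP hQ).trans (mul_eq_self hc).le

lemma mk_union_le' {α : Type 1} {P Q : Set α} {c : Cardinal.{1}} (hc : ℵ₀ ≤ c)
    (hP : #P ≤ c) (hQ : #Q ≤ c) : #(P ∪ Q : Set α) ≤ c :=
  (mk_union_le _ _).trans (add_le_of_le hc hP hQ)

lemma mk_biUnion_le'' {α β : Type 1} {P : Set α} {Q : α → Set β} {c : Cardinal.{1}} (hc : ℵ₀ ≤ c)
    (hP : #P ≤ c) (hQ : ∀ a ∈ P, #(Q a) ≤ c) : #(⋃ a ∈ P, Q a) ≤ c :=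
  (mk_biUnion_le Q P).trans
    ((mul_le_mul' hP (ciSup_le' fun a : P => hQ a.1 a.2)).trans (mul_eq_self hc).le)

section

variable {S : Type} [LinearOrder S] [WellFoundedLT S] [IsRegularCardinalOrder S]

/-- A continuous approach to `ε` of length `S`. -/
def Appr (f : S → Ordinal.{0}) (ε : Ordinal.{0}) : Prop :=
  Monotone f ∧ (∀ b, IsSuccLimit b → ∀ a, (∀ i < b, f i ≤ a) → f b ≤ a) ∧ (∀ i, f i < ε) ∧
    ∀ a < ε, ∃ i, a < f i

/-- The canonical approach. -/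
noncomputable def ee (S : Type) [LinearOrder S] (ε : Ordinal.{0}) : S → Ordinal.{0} :=
  Classical.epsilon fun f => Appr f ε

lemma Appr.agree (hS : ℵ₀ < #S) {f : S → Ordinal.{0}} {ε : Ordinal.{0}} (hf : Appr f ε) :
    ∃ D : Set S, IsClub D ∧ ∀ k ∈ D, f k = ee S ε k := by
  have hg : Appr (ee S ε) ε := Classical.epsilon_spec (p := fun f => Appr f ε) ⟨f, hf⟩
  have key : ∀ {f g : S → Ordinal.{0}}, Appr f ε → Appr g ε →
      ∃ D : Set S, IsClub D ∧ ∀ k ∈ D, f k ≤ g k := by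
    intro f g hf hg
    choose φ hφ using fun i => hg.2.2.2 _ (hf.2.2.1 i)
    obtain ⟨D, hD, hD'⟩ := exists_club_lim hS φ
    exact ⟨D, hD, fun k hk => hf.2.1 k (hD' k hk).1 _ fun i hi =>
      (hφ i).le.trans (hg.1 ((hD' k hk).2 i hi).le)⟩
  obtain ⟨D₁, h1, h1'⟩ := key hf hg
  obtain ⟨D₂, h2, h2'⟩ := key hg hf
  exact ⟨D₁ ∩ D₂, h1.inter (cof_ne_aleph0 hS) h2, fun b hb => (h1' b hb.1).antisymm (h2' b hb.2)⟩

/-- A continuous chain of small sets of ordinals recording its own suprema. -/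
structure Chain (N : S → Set Ordinal.{0}) : Prop where
  mono : Monotone N
  cont : ∀ b, IsSuccLimit b → ∀ a ∈ N b, ∃ i < b, a ∈ N i
  size : ∀ k, #(N k) ≤ Cardinal.lift.{1} #S
  ch : ∀ k k', k < k' → ∀ t : Cardinal.{0}, t.ord ∈ N k → chs (N k) t ∈ N k'

omit [WellFoundedLT S] [IsRegularCardinalOrder S] in
lemma Chain.size_all (hS : ℵ₀ < #S) {N : S → Set Ordinal.{0}} (hN : Chain N) :
    #(⋃ k, N k) ≤ Cardinal.lift.{1} #S := by
  have h1 := mk_iUnion_le_lift N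
  rw [lift_uzero] at h1
  refine h1.trans ((mul_le_mul' (b := Cardinal.lift.{1} #S) (d := Cardinal.lift.{1} #S) le_rfl
    (ciSup_le' fun j => ?_)).trans (mul_eq_self (by simpa using hS.le)).le)
  rw [lift_uzero]
  exact hN.size j

omit [LinearOrder S] [WellFoundedLT S] [IsRegularCardinalOrder S] in
lemma lt_eps {N : S → Set Ordinal.{0}} {t : Cardinal.{0}} {a : Ordinal.{0}}
    (ha : a < chs (⋃ k, N k) t) : ∃ i, a < chs (N i) t := by
  by_contra! h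
  refine ha.not_ge (chs_le fun b hb hb' => ?_)
  obtain ⟨i, hi⟩ := mem_iUnion.1 hb
  exact (lt_chs hi hb').trans_le (h i)

lemma Chain.appr (hS : ℵ₀ < #S) {N : S → Set Ordinal.{0}} (hN : Chain N) {t : Cardinal.{0}}
    (ht : t.IsRegular) (hSt : #S < t) {y : S} (hy : t.ord ∈ N y) :
    Appr (fun k => chs (N k) t) (chs (⋃ k, N k) t) := by
  refine ⟨fun i j h => chs_mono (hN.mono h) t, fun b hb a h => chs_le fun c hc hc' => ?_,
    fun i => ?_, fun a ha => lt_eps ha⟩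
  · obtain ⟨i, hi, h1⟩ := hN.cont b hb c hc
    exact (lt_chs h1 hc').trans_le (h i hi)
  · obtain ⟨k, hk⟩ := exists_gt' hS.le (max i y)
    refine (chs_mono (hN.mono (le_max_left i y)) t).trans_lt (lt_chs ?_ ?_)
    · exact mem_iUnion.2 ⟨k, hN.ch _ _ hk t (hN.mono (le_max_right _ _) hy)⟩
    · exact chs_lt ht hSt (hN.size _)

end

/-- The chosen universal sequence. -/
noncomputable def uf (θ : ℕ → Cardinal.{0}) (l : Cardinal.{0}) : Ordinal.{0} → ℕ → Ordinal.{0} :=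
  Classical.epsilon fun f => Univ θ l f

/-- The least club supremum. -/
noncomputable def ft (S : Type) [LinearOrder S] (θ : ℕ → Cardinal.{0}) (n : ℕ)
    (p : Ordinal.{0} × Ordinal.{0}) : Ordinal.{0} :=
  sInf {β | ∃ D : Set S, IsClub D ∧ ∀ k ∈ D, uf θ p.1.card (ee S p.2 k) n ≤ β}

/-- The family of finite maxima of canonical functions. -/
def Gfam (S : Type) [LinearOrder S] (θ : ℕ → Cardinal.{0}) (κ : Cardinal.{0}) :
    Set (ℕ → Ordinal.{0}) :=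
  (fun L n => valL (ft S θ n) L) '' {L | ∀ p ∈ L, p ∈ Iic κ.ord ×ˢ Iic κ.ord}

lemma mk_Gfam (S : Type) [LinearOrder S] (θ : ℕ → Cardinal.{0}) {κ : Cardinal.{0}}
    (hκ : ℵ₀ ≤ κ) : #(Gfam S θ κ) ≤ Cardinal.lift.{1} κ := by
  have hκ' : ℵ₀ ≤ Cardinal.lift.{1} κ := by simpa using hκ
  have h : #(Iic κ.ord) ≤ Cardinal.lift.{1} κ := by
    rw [← Iio_insert]
    refine mk_insert_le.trans (add_le_of_le hκ' ?_ (one_le_aleph0.trans hκ'))
    rw [mk_Iio_ordinal, card_ord]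
  exact mk_image_le.trans (mk_lists_le hκ' (mk_prod_le' hκ' h h))

/-- The tracked subsets of the index set. -/
def Xl (θ : ℕ → Cardinal.{0}) : List (Ordinal.{0} × Set Ordinal.{0}) → Set ℕ
  | [] => univ
  | p :: l => {n | n ∈ Xl θ l ∧ uf θ (lam θ (Xl θ l)) p.1 n < chs p.2 (θ n)}

/-- The chosen domination witness. -/
noncomputable def wit (θ : ℕ → Cardinal.{0}) (X : Set ℕ) (Z : Set Ordinal.{0}) : Ordinal.{0} :=
  Classical.epsilon fun α => α < (lam θ X).ord ∧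
    ∀ᶠ n in Fm θ (lam θ X), n ∈ X → chs Z (θ n) ≤ uf θ (lam θ X) α n

/-- The closure operator attached to a product. -/
def Phi (θ : ℕ → Cardinal.{0}) (A : Set (Set Ordinal.{0})) : Set Ordinal.{0} :=
  ((fun l => (lam θ (Xl θ l)).ord) '' {l | ∀ p ∈ l, p ∈ (⋃₀ A) ×ˢ A} ∪
    image2 (fun l Z => wit θ (Xl θ l) Z) {l | ∀ p ∈ l, p ∈ (⋃₀ A) ×ˢ A} A) ∪
    ⋃ n, image2 (fun t β => uf θ t.card β n) (⋃₀ A) (⋃₀ A)

lemma mk_Phi (θ : ℕ → Cardinal.{0}) {A : Set (Set Ordinal.{0})} {c : Cardinal.{1}} (hc : ℵ₀ ≤ c)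
    (hA : #A ≤ c) (hA' : ∀ Z ∈ A, #Z ≤ c) : #(Phi θ A) ≤ c := by
  have h1 : #(⋃₀ A) ≤ c := by
    rw [sUnion_eq_biUnion]
    exact mk_biUnion_le'' hc hA hA'
  have h2 := mk_lists_le hc (mk_prod_le' hc h1 hA)
  refine mk_union_le' hc (mk_union_le' hc (mk_image_le.trans h2)
    (mk_image2_le.trans ((mul_le_mul' h2 hA).trans (mul_eq_self hc).le))) ?_
  have h3 := mk_iUnion_le_lift fun n : ℕ => image2 (fun t β => uf θ t.card β n) (⋃₀ A) (⋃₀ A)
  rw [lift_uzero] at h3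
  refine h3.trans ((mul_le_mul' (b := c) (d := c) (by simpa using hc)
    (ciSup_le' fun n => ?_)).trans (mul_eq_self hc).le)
  rw [lift_uzero]
  exact mk_image2_le.trans ((mul_le_mul' h1 h1).trans (mul_eq_self hc).le)

theorem eps_mem_Gfam {S : Type} [LinearOrder S] [WellFoundedLT S] [IsRegularCardinalOrder S]
    (hS : ℵ_ 1 ≤ #S) {N : S → Set Ordinal.{0}} (hN : Chain N) {θ : ℕ → Cardinal.{0}}
    (hθ : Prog #S θ) {κ : Cardinal.{0}} (hκ : ∀ U : Ultrafilter ℕ, CofLe θ U κ) (x : S)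
    (hΦ : ∀ k k', x ≤ k → k < k' → Phi θ (N '' Iic k) ⊆ N k') :
    (fun n => chs (⋃ k, N k) (θ n)) ∈ Gfam S θ κ := by
  have hS0 : ℵ₀ < #S := aleph0_lt_aleph_one.trans_le hS
  have hsub : ∀ {k j : S} {a : Ordinal.{0}}, j ≤ k → a ∈ N j → a ∈ ⋃₀ (N '' Iic k) :=
    fun hj ha => ⟨_, ⟨_, hj, rfl⟩, ha⟩
  have key : ∀ (μ : Cardinal.{0}) (l : List (Ordinal.{0} × Set Ordinal.{0})) (k : S), x ≤ k →
      (∀ p ∈ l, p ∈ (⋃₀ (N '' Iic k)) ×ˢ (N '' Iic k)) → lam θ (Xl θ l) = μ →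
      ∃ L : List (Ordinal.{0} × Ordinal.{0}), (∀ p ∈ L, p ∈ Iic κ.ord ×ˢ Iic κ.ord) ∧
        (∀ p ∈ L, ∀ n, ft S θ n p ≤ chs (⋃ k, N k) (θ n)) ∧
        ∀ n ∈ Xl θ l, ∃ p ∈ L, chs (⋃ k, N k) (θ n) ≤ ft S θ n p := by
    intro μ
    induction μ using WellFoundedLT.induction with
    | ind μ IH =>
    intro l k₀ hk₀ hl hμ
    rcases (Xl θ l).eq_empty_or_nonempty with hX | hX
    · exact ⟨[], by simp, by simp, by simp [hX]⟩
    have hreg : μ.IsRegular := hμ ▸ lam_regular hκ hθ hS hX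
    have hSμ : #S < μ := hμ ▸ lt_lam hκ hθ hX
    have hμκ : μ ≤ κ := hμ ▸ lam_le hκ _
    have hu : Univ θ μ (uf θ μ) := Classical.epsilon_spec (p := fun f => Univ θ μ f)
      (exists_univ hθ hS (by rw [hreg.cof_ord]; exact hS.trans_lt hSμ))
    obtain ⟨k₁, hk₁⟩ := exists_gt' hS0.le k₀
    have hμN : μ.ord ∈ N k₁ := hΦ k₀ k₁ hk₀ hk₁ (Or.inl (Or.inl ⟨l, hl, by simp only [hμ]⟩))
    have happ := hN.appr hS0 hreg hSμ hμN
    set δ := chs (⋃ k, N k) μ with hδ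
    have hδμ : δ < μ.ord := chs_lt hreg hSμ (hN.size_all hS0)
    obtain ⟨D₀, hD₀, hD₀'⟩ := happ.agree hS0
    have hIci : IsClub (Ici k₁) := by
      refine ⟨fun d hd hd' _ a ha => ?_, fun a => ⟨max a k₁, le_max_right _ _, le_max_left _ _⟩⟩
      obtain ⟨y, hy⟩ := hd'
      exact (hd hy).trans (ha.1 hy)
    have hwit : ∀ n, ∀ k ∈ D₀ ∩ Ici k₁,
        uf θ (μ.ord, δ).1.card (ee S (μ.ord, δ).2 k) n ≤ chs (⋃ k, N k) (θ n) := by
      intro n k hk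
      simp only [card_ord]
      rw [← hD₀' k hk.1]
      obtain ⟨k', hk'⟩ := exists_gt' hS0.le k
      obtain ⟨k'', hk''⟩ := exists_gt' hS0.le k'
      have h1 : μ.ord ∈ N k := hN.mono hk.2 hμN
      refine (lt_chs (mem_iUnion.2 ⟨k'', hΦ k' k'' (hk₀.trans (hk₁.le.trans (hk.2.trans hk'.le)))
        hk'' (Or.inr (mem_iUnion.2 ⟨n, μ.ord, hsub hk'.le h1, _,
          hsub le_rfl (hN.ch k k' hk' μ h1), by simp only [card_ord]⟩))⟩) ?_).le
      exact hu.1 _ ((happ.2.2.1 k).trans hδμ) n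
    have hft : ∀ n, ft S θ n (μ.ord, δ) ≤ chs (⋃ k, N k) (θ n) := fun n =>
      csInf_le' ⟨_, hD₀.inter (cof_ne_aleph0 hS0) hIci, hwit n⟩
    have hmin : ∀ n, ∃ D : Set S, IsClub D ∧ ∀ k ∈ D,
        uf θ (μ.ord, δ).1.card (ee S (μ.ord, δ).2 k) n ≤ ft S θ n (μ.ord, δ) := fun n =>
      csInf_mem (s := {β | ∃ D : Set S, IsClub D ∧ ∀ k ∈ D,
        uf θ (μ.ord, δ).1.card (ee S (μ.ord, δ).2 k) n ≤ β})
        ⟨_, _, hD₀.inter (cof_ne_aleph0 hS0) hIci, hwit n⟩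
    choose D hD hD' using hmin
    have hi : ∀ n, ∃ i, ft S θ n (μ.ord, δ) < chs (⋃ k, N k) (θ n) →
        ft S θ n (μ.ord, δ) < chs (N i) (θ n) := by
      intro n
      by_cases h : ft S θ n (μ.ord, δ) < chs (⋃ k, N k) (θ n)
      · obtain ⟨i, hi⟩ := lt_eps h
        exact ⟨i, fun _ => hi⟩
      · exact ⟨x, fun h' => absurd h' h⟩
    choose i hi using hi
    obtain ⟨i₀, hi₀⟩ := exists_gt_of_countable hS0 ((countable_range i).insert k₁)
    have hk₁i : k₁ < i₀ := hi₀ _ (mem_insert _ _)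
    have hgP : InP θ fun n => chs (N i₀) (θ n) := fun n =>
      chs_lt (hθ n).1 (hθ n).2 (hN.size _)
    have hw : wit θ (Xl θ l) (N i₀) < (lam θ (Xl θ l)).ord ∧
        ∀ᶠ n in Fm θ (lam θ (Xl θ l)), n ∈ Xl θ l →
          chs (N i₀) (θ n) ≤ uf θ (lam θ (Xl θ l)) (wit θ (Xl θ l) (N i₀)) n :=
      Classical.epsilon_spec (p := fun α => α < (lam θ (Xl θ l)).ord ∧
        ∀ᶠ n in Fm θ (lam θ (Xl θ l)), n ∈ Xl θ l →
          chs (N i₀) (θ n) ≤ uf θ (lam θ (Xl θ l)) α n)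
        (exists_wit hκ (hμ ▸ hu) (hμ ▸ hreg.pos) hgP)
    rw [hμ] at hw
    have hmono : ∀ {k : S}, k₀ ≤ k → ∀ p ∈ l, p ∈ (⋃₀ (N '' Iic k)) ×ˢ (N '' Iic k) := by
      intro k hk p hp
      have h1 : N '' Iic k₀ ⊆ N '' Iic k := image_mono (Iic_subset_Iic.2 hk)
      exact ⟨sUnion_mono h1 (hl p hp).1, h1 (hl p hp).2⟩
    obtain ⟨i₁, hi₁⟩ := exists_gt' hS0.le i₀
    have hwN : wit θ (Xl θ l) (N i₀) ∈ N i₁ :=
      hΦ i₀ i₁ (hk₀.trans (hk₁.trans hk₁i).le) hi₁ (Or.inl (Or.inr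
        ⟨l, hmono (hk₁.trans hk₁i).le, _, ⟨i₀, le_rfl, rfl⟩, rfl⟩))
    obtain ⟨k, hk, hik⟩ := ((IsClub.iInter_of_countable (cof_ne_aleph0 hS0) hD).inter
      (cof_ne_aleph0 hS0) hD₀).isCofinal i₁
    obtain ⟨k', hk'⟩ := exists_gt' hS0.le k
    have hk₁k : k₁ ≤ k := (hk₁i.trans hi₁).le.trans hik
    have hwk : wit θ (Xl θ l) (N i₀) < chs (N k) μ := lt_chs (hN.mono hik hwN) hw.1
    have hβ : chs (N k) μ < μ.ord := (happ.2.2.1 k).trans hδμ
    obtain ⟨L, hL1, hL2, hL3⟩ := IH (lam θ (Xl θ ((chs (N k) μ, N i₀) :: l))) (by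
        refine lam_lt hreg.pos ?_
        filter_upwards [hw.2, hu.2.1 _ _ hwk.le hβ] with n h1 h2 h3
        have h4 := h3.2
        rw [hμ] at h4
        exact h4.not_ge ((h1 h3.1).trans h2))
      ((chs (N k) μ, N i₀) :: l) k' (hk₀.trans (hk₁.le.trans (hk₁k.trans hk'.le))) (by
        intro p hp
        rcases List.mem_cons.1 hp with rfl | hp
        · exact ⟨hsub le_rfl (hN.ch k k' hk' μ (hN.mono hk₁k hμN)),
            i₀, hi₁.le.trans (hik.trans hk'.le), rfl⟩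
        · exact hmono (hk₁.le.trans (hk₁k.trans hk'.le)) p hp) rfl
    refine ⟨(μ.ord, δ) :: L, fun p hp => ?_, fun p hp => ?_, fun n hn => ?_⟩
    · rcases List.mem_cons.1 hp with rfl | hp
      · exact ⟨ord_le_ord.2 hμκ, hδμ.le.trans (ord_le_ord.2 hμκ)⟩
      · exact hL1 p hp
    · rcases List.mem_cons.1 hp with rfl | hp
      · exact hft
      · exact hL2 p hp
    · rcases le_or_gt (chs (⋃ k, N k) (θ n)) (ft S θ n (μ.ord, δ)) with h | h
      · exact ⟨_, List.mem_cons_self, h⟩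
      · have h1 := hD' n k (mem_iInter.1 hk.1 n)
        simp only [card_ord] at h1
        rw [← hD₀' k hk.2] at h1
        obtain ⟨p, hp, h2⟩ := hL3 n ⟨hn, by
          rw [hμ]
          exact h1.trans_lt ((hi n h).trans_le
            (chs_mono (hN.mono (hi₀ _ (mem_insert_of_mem _ ⟨n, rfl⟩)).le) _))⟩
        exact ⟨p, List.mem_cons_of_mem _ hp, h2⟩
  obtain ⟨L, h1, h2, h3⟩ := key _ [] x le_rfl (by simp) rfl
  refine ⟨L, h1, funext fun n => le_antisymm (valL_le _ fun p hp => h2 p hp n) ?_⟩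
  obtain ⟨p, hp, h4⟩ := h3 n trivial
  exact h4.trans (le_valL _ hp)

end Pool.Agent.Work.MP_d02fb9_lc.S
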