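import Mathlib.SetTheory.Cardinal.Regular
import Mathlib.Order.Filter.AtTopBot.Basic
import Mathlib.Order.Filter.Ultrafilter.Defs

/-!
Local dominating numbers and sets of regular cardinals with small countable products.
-/

namespace Pool.Agent.Work.MP_d02fb9_lc.S

open Cardinal Filter

/-- The local dominating number `𝔡(Y)`: the least size of a family of functions eventually
dominating every member of `Y`. -/
noncomputable def locDom (Y : Set (ℕ → ℕ)) : Cardinal.{0} :=
  sInf {c | ∃ F : Set (ℕ → ℕ), (∀ g ∈ Y, ∃ f ∈ F, ∀ᶠ n in atTop, g n ≤ f n) ∧ #F = c}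

/-- Every ultraproduct of a sequence of regular cardinals from `R` has cofinality at most `κ`. -/
def SmallProducts (R : Set Cardinal.{0}) (κ : Cardinal.{0}) : Prop :=
  ∀ (θ : ℕ → Cardinal.{0}) (U : Ultrafilter ℕ), (∀ n, θ n ∈ R ∧ (θ n).IsRegular) →
    ∃ F : Set (ℕ → Ordinal.{0}), #F ≤ Cardinal.lift.{1} κ ∧ (∀ f ∈ F, ∀ n, f n < (θ n).ord) ∧
      ∀ g : ℕ → Ordinal.{0}, (∀ n, g n < (θ n).ord) → ∃ f ∈ F, ∀ᶠ n in U, g n ≤ f n

end Pool.Agent.Work.MP_d02fb9_lc.S
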