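import Pool.Agent.Work.MP_d02fb9_lc.Main
import Pool.Agent.Work.MP_d02fb9_lc.S.Defs

/-!
Situations in which the uncountable cofinalities of the local dominating numbers split into few
classes with small countable products.
-/

namespace Pool.Agent.Work.MP_d02fb9_lc.S

open Cardinal Set Order Filter

/-- The uncountable cofinalities of local dominating numbers are covered by at most `μ` sets with
small countable products. -/
def Classes (κ μ : Cardinal.{0}) : Prop :=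
  ∃ (I : Type) (R : I → Set Cardinal.{0}), #I ≤ μ ∧ (∀ j, SmallProducts (R j) κ) ∧
    ∀ Y, ℵ₀ < (locDom Y).ord.cof → ∃ j, (locDom Y).ord.cof ∈ R j

/-- `ν` is the limit along an ultrafilter of a sequence of smaller regular cardinals whose
ultraproduct has cofinality above `κ`; that is, `cf ν = ω` and `pp(ν) > κ`. -/
def PPAbove (ν κ : Cardinal.{0}) : Prop :=
  ∃ (θ : ℕ → Cardinal.{0}) (U : Ultrafilter ℕ), (∀ n, (θ n).IsRegular ∧ θ n < ν) ∧
    (∀ τ < ν, ∀ᶠ n in U, τ < θ n) ∧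
    ∀ F : Set (ℕ → Ordinal.{0}), #F ≤ Cardinal.lift.{1} κ → (∀ f ∈ F, ∀ n, f n < (θ n).ord) →
      ∃ g : ℕ → Ordinal.{0}, (∀ n, g n < (θ n).ord) ∧ ∀ f ∈ F, ∀ᶠ n in U, f n < g n

lemma classes_of_family {κ μ : Cardinal.{0}} (𝒞 : Set (Set Cardinal.{0}))
    (h1 : #𝒞 ≤ Cardinal.lift.{1} μ) (h2 : ∀ c ∈ 𝒞, SmallProducts c κ)
    (h3 : ∀ Y, ℵ₀ < (locDom Y).ord.cof → ∃ c ∈ 𝒞, (locDom Y).ord.cof ∈ c) : Classes κ μ := by
  have h : Cardinal.lift.{0} #𝒞 ≤ Cardinal.lift.{1} #μ.out := by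
    rwa [mk_out, lift_uzero]
  obtain ⟨e⟩ := lift_mk_le'.1 h
  refine ⟨μ.out, fun j => {θ | ∃ c : 𝒞, e c = j ∧ θ ∈ c.1}, (mk_out μ).le, fun j θ U hθ => ?_,
    fun Y hY => ?_⟩
  · obtain ⟨c, hc, -⟩ := (hθ 0).1
    refine h2 c.1 c.2 θ U fun n => ⟨?_, (hθ n).2⟩
    obtain ⟨c', hc', h⟩ := (hθ n).1
    rwa [e.injective (hc'.trans hc.symm)] at h
  · obtain ⟨c, hc, h⟩ := h3 Y hY
    exact ⟨e ⟨c, hc⟩, ⟨c, hc⟩, rfl, h⟩

lemma exists_bound_countable {θ : Cardinal.{0}} (hθ : θ.IsRegular) (h0 : ℵ₀ < θ)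
    {s : Set Ordinal.{0}} (hs : s.Countable) (h : ∀ a ∈ s, a < θ.ord) :
    ∃ β < θ.ord, ∀ a ∈ s, a < β :=
  exists_bound hθ ((le_aleph0_iff_set_countable.2 hs).trans_lt (by simpa using h0)) h

lemma small_singleton {θ κ : Cardinal.{0}} (h0 : ℵ₀ < θ) (h : θ ≤ κ) : SmallProducts {θ} κ := by
  intro t U ht
  have ht' : ∀ n, t n = θ := fun n => (ht n).1
  have hreg : θ.IsRegular := ht' 0 ▸ (ht 0).2
  refine ⟨range fun a : Iio θ.ord => fun _ => a.1, mk_range_le.trans ?_, ?_, fun g hg => ?_⟩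
  · rw [mk_Iio_ordinal, card_ord]
    exact lift_le.2 h
  · rintro _ ⟨a, rfl⟩ n
    rw [ht' n]
    exact a.2
  · obtain ⟨β, hβ, hb⟩ := exists_bound_countable hreg h0 (countable_range g)
      (by rintro _ ⟨n, rfl⟩; exact ht' n ▸ hg n)
    exact ⟨_, ⟨⟨β, hβ⟩, rfl⟩, Eventually.of_forall fun n => (hb _ ⟨n, rfl⟩).le⟩

lemma small_fix {ρ κ : Cardinal.{0}} (hfix : cofCtble ρ ≤ ρ) (h : ρ ≤ κ) :
    SmallProducts (Ioc ℵ₀ ρ) κ := by
  intro t U ht
  obtain ⟨G, h1, h2, h3⟩ := cov'_of_cofCtble hfix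
  have hb : ∀ u : G, ∀ n, ∃ β < (t n).ord, ∀ a ∈ u.1 ∩ Iio (t n).ord, a < β := fun u n =>
    exists_bound_countable (ht n).2 (ht n).1.1 ((h2 u.1 u.2).mono inter_subset_left)
      fun a ha => ha.2
  choose f hf1 hf2 using hb
  refine ⟨range f, mk_range_le.trans (h1.trans (lift_le.2 h)), ?_, fun g hg => ?_⟩
  · rintro _ ⟨u, rfl⟩ n
    exact hf1 u n
  · obtain ⟨u, hu, hsub⟩ := h3 (range g)
      (by rintro _ ⟨n, rfl⟩; exact (hg n).trans_le (ord_le_ord.2 (ht n).1.2)) (countable_range g)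
    exact ⟨_, ⟨⟨u, hu⟩, rfl⟩,
      Eventually.of_forall fun n => (hf2 ⟨u, hu⟩ n _ ⟨hsub ⟨n, rfl⟩, hg n⟩).le⟩

lemma exists_locDom (Y : Set (ℕ → ℕ)) :
    ∃ F : Set (ℕ → ℕ), (∀ g ∈ Y, ∃ f ∈ F, Dom g f) ∧ #F = locDom Y :=
  csInf_mem (s := {c | ∃ F : Set (ℕ → ℕ), (∀ g ∈ Y, ∃ f ∈ F, ∀ᶠ n in atTop, g n ≤ f n) ∧
    #F = c}) ⟨_, univ, fun g _ => ⟨g, trivial, Dom.refl g⟩, rfl⟩

lemma locDom_le_domNum (Y : Set (ℕ → ℕ)) : locDom Y ≤ domNum := by
  obtain ⟨F, hF, hc⟩ := exists_dominating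
  exact csInf_le' ⟨F, fun g _ => hF g, hc⟩

lemma bddNum_le_locDom {Y : Set (ℕ → ℕ)} (h : 1 < locDom Y) : bddNum ≤ locDom Y := by
  obtain ⟨F, hF, hc⟩ := exists_locDom Y
  refine csInf_le' ⟨F, ?_, hc⟩
  rintro ⟨g, hg⟩
  refine h.not_ge (csInf_le' ⟨{g}, fun a ha => ?_, mk_singleton g⟩)
  obtain ⟨f, hf, hd⟩ := hF a ha
  exact ⟨g, rfl, hd.trans (hg f hf)⟩

lemma locDom_mem_Icc {Y : Set (ℕ → ℕ)} (h : ℵ₀ < (locDom Y).ord.cof) :
    locDom Y ∈ Icc bddNum domNum :=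
  ⟨bddNum_le_locDom (one_lt_aleph0.trans (h.trans_le (Ordinal.cof_ord_le _))), locDom_le_domNum Y⟩

lemma aleph0_lt_bddNum : ℵ₀ < bddNum := by
  obtain ⟨F, hF, hc⟩ := csInf_mem (s := {c | ∃ F : Set (ℕ → ℕ),
    (¬ ∃ g : ℕ → ℕ, ∀ f ∈ F, ∀ᶠ n in atTop, f n ≤ g n) ∧ #F = c}) ⟨_, univ, by
      rintro ⟨g, hg⟩
      obtain ⟨n, hn⟩ := (hg (fun n => g n + 1) trivial).exists
      exact absurd hn (by simp), rfl⟩
  by_contra! h
  exact hF (exists_dom_of_countable (le_aleph0_iff_set_countable.1 (hc.le.trans h)))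

lemma cofCtble_aleph0 : cofCtble ℵ₀ ≤ ℵ₀ := by
  have hc : (univ : Set (ℵ₀ : Cardinal.{0}).out).Countable := by
    rw [← le_aleph0_iff_set_countable, mk_univ, mk_out]
  refine le_trans (csInf_le' ⟨{Set.univ}, ?_, fun A _ => ⟨_, rfl, subset_univ A⟩, mk_singleton _⟩)
    one_le_aleph0
  rintro _ rfl
  exact hc

/-- Few cardinals between `𝔟` and `𝔡`. -/
theorem classes_of_few {κ μ : Cardinal.{0}} (hd : domNum ≤ κ)
    (h : #(Icc bddNum domNum) ≤ Cardinal.lift.{1} μ) : Classes κ μ := by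
  refine classes_of_family ((fun τ : Cardinal.{0} => ({τ.ord.cof} : Set Cardinal.{0})) ''
      {τ ∈ Icc bddNum domNum | ℵ₀ < τ.ord.cof})
    (mk_image_le.trans ((mk_le_mk_of_subset fun τ hτ => hτ.1).trans h)) ?_
    fun Y hY => ⟨_, ⟨_, ⟨locDom_mem_Icc hY, hY⟩, rfl⟩, rfl⟩
  rintro _ ⟨τ, ⟨h1, h2⟩, rfl⟩
  exact small_singleton h2 ((Ordinal.cof_ord_le τ).trans (h1.2.trans hd))

theorem classes_of_bdd_eq_dom (h : bddNum = domNum) : Classes domNum ℵ₀ :=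
  classes_of_few le_rfl (by rw [h]; simp)

/-- Few cardinals above a fixed point of the cofinality of the countable subsets. -/
theorem classes_of_fixed {ρ κ μ : Cardinal.{0}} (hμ : ℵ₀ ≤ μ) (hfix : cofCtble ρ ≤ ρ)
    (hρκ : ρ ≤ κ) (hd : domNum ≤ κ) (h : #(Icc ρ κ) ≤ Cardinal.lift.{1} μ) : Classes κ μ := by
  have hμ' : ℵ₀ ≤ Cardinal.lift.{1} μ := by simpa using hμ
  refine classes_of_family (insert (Ioc ℵ₀ ρ) ((fun θ => {θ}) '' {θ ∈ Icc ρ κ | ℵ₀ < θ}))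
    (mk_insert_le.trans (add_le_of_le hμ'
      (mk_image_le.trans ((mk_le_mk_of_subset fun τ hτ => hτ.1).trans h))
      (one_le_aleph0.trans hμ'))) ?_ fun Y hY => ?_
  · rintro _ (rfl | ⟨θ, ⟨h1, h2⟩, rfl⟩)
    · exact small_fix hfix hρκ
    · exact small_singleton h2 h1.2
  · rcases le_total (locDom Y).ord.cof ρ with h' | h'
    · exact ⟨_, Or.inl rfl, hY, h'⟩
    · exact ⟨_, Or.inr ⟨_, ⟨⟨h', (Ordinal.cof_ord_le _).trans
        ((locDom_le_domNum Y).trans hd)⟩, hY⟩, rfl⟩, rfl⟩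

/-- A set of uncountable cardinals which accumulates at no bad cardinal has small products. -/
lemma small_of_not_acc {κ : Cardinal.{0}} {c : Set Cardinal.{0}}
    (h1 : ∀ θ ∈ c, ℵ₀ < θ ∧ θ ≤ κ)
    (h2 : ∀ ν, PPAbove ν κ → (∀ τ < ν, ∃ θ ∈ c, τ < θ ∧ θ < ν) → False) :
    SmallProducts c κ := by
  classical
  intro t U ht
  obtain ⟨ν, hν, hmin⟩ := wellFounded_lt.has_min {ν | ∀ᶠ n in U, t n ≤ ν}
    ⟨κ, Eventually.of_forall fun n => (h1 _ (ht n).1).2⟩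
  have hlim : ∀ τ < ν, ∀ᶠ n in U, τ < t n := by
    intro τ hτ
    rcases U.em (fun n => t n ≤ τ) with h | h
    · exact absurd hτ (hmin τ h)
    · exact h.mono fun n hn => not_le.1 hn
  rcases U.em (fun n => t n = ν) with h | h
  · obtain ⟨n₀, hn₀⟩ := h.exists
    obtain ⟨F, hF1, hF2, hF3⟩ := small_singleton (κ := κ) (h1 _ (ht n₀).1).1 (h1 _ (ht n₀).1).2
      (fun _ => t n₀) U fun _ => ⟨rfl, (ht n₀).2⟩
    refine ⟨(fun f n => if t n = ν then f n else 0) '' F, mk_image_le.trans hF1, ?_,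
      fun g hg => ?_⟩
    · rintro _ ⟨f, hf, rfl⟩ n
      by_cases hn : t n = ν
      · simp only [if_pos hn]
        rw [hn, ← hn₀]
        exact hF2 f hf n
      · simp only [if_neg hn]
        exact (ht n).2.ord_pos
    · obtain ⟨f, hf, hd⟩ := hF3 (fun n => if t n = ν then g n else 0) fun n => by
        by_cases hn : t n = ν
        · simp only [if_pos hn]
          rw [hn₀, ← hn]
          exact hg n
        · simp only [if_neg hn]
          exact (ht n₀).2.ord_pos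
      refine ⟨_, ⟨f, hf, rfl⟩, (hd.and h).mono fun n hn => ?_⟩
      simpa only [if_pos hn.2] using hn.1
  · have hlt : ∀ᶠ n in U, t n < ν := (hν.and h).mono fun n hn => lt_of_le_of_ne hn.1 hn.2
    obtain ⟨n₀, hn₀⟩ := hlt.exists
    by_contra hcon
    refine h2 ν ⟨fun n => if t n < ν then t n else t n₀, U, fun n => ?_, fun τ hτ => ?_,
      fun F hF1 hF2 => ?_⟩ fun τ hτ => ?_
    · by_cases hn : t n < ν
      · simp only [if_pos hn]
        exact ⟨(ht n).2, hn⟩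
      · simp only [if_neg hn]
        exact ⟨(ht n₀).2, hn₀⟩
    · exact ((hlim τ hτ).and hlt).mono fun n hn => by simpa only [if_pos hn.2] using hn.1
    · by_contra hc
      refine hcon ⟨(fun f n => if t n < ν then f n else 0) '' F, mk_image_le.trans hF1, ?_,
        fun g hg => ?_⟩
      · rintro _ ⟨f, hf, rfl⟩ n
        by_cases hn : t n < ν
        · simpa only [if_pos hn] using hF2 f hf n
        · simp only [if_neg hn]
          exact (ht n).2.ord_pos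
      · by_contra hg'
        refine hc ⟨fun n => if t n < ν then g n else 0, fun n => ?_, fun f hf => ?_⟩
        · by_cases hn : t n < ν
          · simpa only [if_pos hn] using hg n
          · simp only [if_neg hn]
            exact (ht n₀).2.ord_pos
        · rcases U.em (fun n => g n ≤ f n) with h' | h'
          · exact absurd ⟨_, ⟨f, hf, rfl⟩,
              (h'.and hlt).mono fun n hn => by simpa only [if_pos hn.2] using hn.1⟩ hg'
          · exact (h'.and hlt).mono fun n hn => by simpa only [if_pos hn.2] using not_le.1 hn.1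
    · obtain ⟨n, hn⟩ := ((hlim τ hτ).and hlt).exists
      exact ⟨_, (ht n).1, hn⟩

/-- The form with the weak hypothesis: few cardinals `ν ≤ 𝔡` of countable cofinality have
`pp(ν) > κ`. -/
theorem classes_of_pp {κ μ : Cardinal.{0}} (hμ : ℵ₀ ≤ μ) (hd : domNum ≤ κ)
    (h : #{ν | ν ≤ domNum ∧ PPAbove ν κ} ≤ Cardinal.lift.{1} μ) : Classes κ μ := by
  classical
  have hμ' : ℵ₀ ≤ Cardinal.lift.{1} μ := by simpa using hμ
  set W := {ν | ν ≤ domNum ∧ PPAbove ν κ} with hW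
  choose t U ht1 ht2 ht3 using fun w : W => w.2.2
  let c : W × ℕ → Set Cardinal.{0} := fun p =>
    {θ ∈ Ioc ℵ₀ domNum | θ < t p.1 p.2 ∧ ∀ ν ∈ W, θ < ν → p.1.1 ≤ ν}
  have hacc : ∀ (s : Set Cardinal.{0}) ν, (∀ θ ∈ s, θ ≤ domNum) → PPAbove ν κ →
      (∀ τ < ν, ∃ θ ∈ s, τ < θ ∧ θ < ν) → ν ∈ W := by
    intro s ν hs hν hacc
    refine ⟨?_, hν⟩
    by_contra! hlt
    obtain ⟨θ, hθ, h1, -⟩ := hacc _ hlt
    exact h1.not_ge (hs θ hθ)
  have hpos : ∀ ν, PPAbove ν κ → 0 < ν := by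
    rintro ν ⟨θ, -, h1, -⟩
    exact (h1 0).1.pos.trans (h1 0).2
  refine classes_of_family (insert {θ ∈ Ioc ℵ₀ domNum | ∀ ν ∈ W, ν ≤ θ} (range c))
    (mk_insert_le.trans (add_le_of_le hμ' (mk_range_le.trans ?_) (one_le_aleph0.trans hμ')))
    ?_ fun Y hY => ?_
  · simp only [mk_prod, lift_uzero, mk_nat, lift_aleph0]
    exact (mul_le_mul' h hμ').trans (mul_eq_self hμ').le
  · rintro _ (rfl | ⟨⟨w, n⟩, rfl⟩)
    · refine small_of_not_acc (fun θ hθ => ⟨hθ.1.1, hθ.1.2.trans hd⟩) fun ν hν ha => ?_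
      obtain ⟨θ, hθ, -, h2⟩ := ha 0 (hpos ν hν)
      exact h2.not_ge (hθ.2 ν (hacc _ ν (fun θ hθ => hθ.1.2) hν ha))
    · refine small_of_not_acc (fun θ hθ => ⟨hθ.1.1, hθ.1.2.trans hd⟩) fun ν hν ha => ?_
      obtain ⟨θ, hθ, -, h2⟩ := ha 0 (hpos ν hν)
      have h3 : w.1 ≤ ν := hθ.2.2 ν (hacc _ ν (fun θ hθ => hθ.1.2) hν ha) h2
      obtain ⟨θ', hθ', h4, -⟩ := ha (t w n) ((ht1 w n).2.trans_le h3)
      exact lt_asymm h4 hθ'.2.1
  · have hθ : (locDom Y).ord.cof ∈ Ioc ℵ₀ domNum :=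
      ⟨hY, (Ordinal.cof_ord_le _).trans (locDom_le_domNum Y)⟩
    by_cases hex : ∃ ν ∈ W, (locDom Y).ord.cof < ν
    · obtain ⟨w, hw, hmin⟩ := wellFounded_lt.has_min {ν ∈ W | (locDom Y).ord.cof < ν} hex
      obtain ⟨n, hn⟩ := (ht2 ⟨w, hw.1⟩ _ hw.2).exists
      exact ⟨_, Or.inr ⟨(⟨w, hw.1⟩, n), rfl⟩, hθ, hn,
        fun ν hν hlt => not_lt.1 (hmin ν ⟨hν, hlt⟩)⟩
    · push Not at hex
      exact ⟨_, Or.inl rfl, hθ, hex⟩

/-- `θ` is Tukey below the functions under eventual domination. -/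
def TukeyBelow (θ : Cardinal.{0}) : Prop :=
  ∃ f : Ordinal.{0} → ℕ → ℕ, ∀ g, ∃ η < θ.ord, ∀ ξ < θ.ord, Dom (f ξ) g → ξ ≤ η

lemma small_tukey {κ : Cardinal.{0}} (hd : domNum ≤ κ) : SmallProducts {θ | TukeyBelow θ} κ := by
  intro t U ht
  choose f η h1 h2 using fun n => (ht n).1
  obtain ⟨F, hF, hc⟩ := exists_dominating
  refine ⟨(fun g n => η n g) '' F, ?_, ?_, fun x hx => ?_⟩
  · have := mk_image_le_lift (f := fun g n => η n g) (s := F)
    rw [lift_uzero] at this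
    exact this.trans (lift_le.2 (hc.le.trans hd))
  · rintro _ ⟨g, -, rfl⟩ n
    exact h1 n g
  · obtain ⟨h, hh⟩ := exists_dom_of_countable (countable_range fun n => f n (x n))
    obtain ⟨g, hg, hd⟩ := hF h
    exact ⟨_, ⟨g, hg, rfl⟩,
      Eventually.of_forall fun n => h2 n g _ (hx n) ((hh _ ⟨n, rfl⟩).trans hd)⟩

/-- All uncountable cofinalities of local dominating numbers are in the Tukey spectrum. -/
theorem classes_of_tukey {κ : Cardinal.{0}} (hd : domNum ≤ κ)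
    (h : ∀ Y, ℵ₀ < (locDom Y).ord.cof → TukeyBelow (locDom Y).ord.cof) : Classes κ ℵ₀ := by
  refine classes_of_family {{θ | TukeyBelow θ}} (by simp) ?_ fun Y hY => ⟨_, rfl, h Y hY⟩
  rintro _ rfl
  exact small_tukey hd

end Pool.Agent.Work.MP_d02fb9_lc.S
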