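import Pool.Agent.Work.MP_d02fb9_lc.S.Main
import Pool.Agent.Work.MP_d02fb9_lc.S.Classes

/-!
Special cases of the bound from few classes.
-/

namespace Pool.Agent.Work.MP_d02fb9_lc.S

open Cardinal Set

variable {X : Type} [TopologicalSpace X] [T3Space X] {D : Set X}

theorem Classes.mk_lt {κ μ : Cardinal.{0}} (h : Classes κ μ) (hd : domNum ≤ κ) (h0 : ℵ₀ ≤ μ)
    (hfix : cofCtble μ ≤ μ) (hb : μ < bddNum) (hX : StronglyStarMenger X) (hD : IsClosed D)
    [DiscreteTopology D] : #D < κ := by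
  obtain ⟨I, R, h1, h2, h3⟩ := h
  exact mk_lt_of_classes hd h0 hfix hb h1 R h2 h3 hX hD

theorem Classes.mk_lt₀ {κ : Cardinal.{0}} (h : Classes κ ℵ₀) (hd : domNum ≤ κ)
    (hX : StronglyStarMenger X) (hD : IsClosed D) [DiscreteTopology D] : #D < κ :=
  h.mk_lt hd le_rfl cofCtble_aleph0 aleph0_lt_bddNum hX hD

lemma card_le_of_countable {s : Set Cardinal.{0}} (h : s.Countable) :
    #s ≤ Cardinal.lift.{1} (ℵ₀ : Cardinal.{0}) := by
  simpa using le_aleph0_iff_set_countable.2 h

/-- The earlier bound under `𝔟 = 𝔡`. -/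
theorem cor_bdd_eq_dom (h : bddNum = domNum) (hX : StronglyStarMenger X) (hD : IsClosed D)
    [DiscreteTopology D] : #D < domNum :=
  (classes_of_bdd_eq_dom h).mk_lt₀ le_rfl hX hD

/-- The earlier bound beyond fixed points. -/
theorem cor_fixed (ρ κ : Cardinal.{0}) (hfix : cofCtble ρ = ρ) (hρκ : ρ ≤ κ)
    (hc : (Set.Icc ρ κ).Countable) (hd : domNum ≤ κ) (hX : StronglyStarMenger X)
    (hD : IsClosed D) [DiscreteTopology D] : #D < κ :=
  (classes_of_fixed le_rfl hfix.le hρκ hd (card_le_of_countable hc)).mk_lt₀ hd hX hD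

/-- Countably many cardinals between `𝔟` and `𝔡`. -/
theorem cor_few (hc : (Set.Icc bddNum domNum).Countable) (hX : StronglyStarMenger X)
    (hD : IsClosed D) [DiscreteTopology D] : #D < domNum :=
  (classes_of_few le_rfl (card_le_of_countable hc)).mk_lt₀ le_rfl hX hD

/-- The weak hypothesis. -/
theorem cor_pp {κ : Cardinal.{0}} (hd : domNum ≤ κ)
    (hc : {ν | ν ≤ domNum ∧ PPAbove ν κ}.Countable) (hX : StronglyStarMenger X)
    (hD : IsClosed D) [DiscreteTopology D] : #D < κ :=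
  (classes_of_pp le_rfl hd (card_le_of_countable hc)).mk_lt₀ hd hX hD

/-- The Tukey spectrum contains all relevant cofinalities. -/
theorem cor_tukey (h : ∀ Y, ℵ₀ < (locDom Y).ord.cof → TukeyBelow (locDom Y).ord.cof)
    (hX : StronglyStarMenger X) (hD : IsClosed D) [DiscreteTopology D] : #D < domNum :=
  (classes_of_tukey le_rfl h).mk_lt₀ le_rfl hX hD

end Pool.Agent.Work.MP_d02fb9_lc.S
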