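import Pool.Agent.Work.MP_d02fb9_lc.S.Char

/-!
Finite depth hulls of paths and the number of coded nodes.
-/

namespace Pool.Agent.Work.MP_d02fb9_lc.S

open Cardinal Set Order

section

variable {S : Type} [LinearOrder S] (ty : S → Ordinal.{0}) (tl : List Ordinal.{0} → Cardinal.{0})

/-- Paths of depth at most `m` built below stage `i`. -/
def Mh (δ : Cardinal.{0} → S → Ordinal.{0}) (G q : Set S) (R : Set Cardinal.{0}) :
    ℕ → S → Set (List Ordinal.{0})
  | 0, _ => {[]}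
  | m + 1, i => (Mh δ G q R m i ∪ {l' | ∃ l ∈ Mh δ G q R m i, ∃ j ∈ G, j < i ∧ l' = ty j :: l}) ∪
      {l' | ∃ k ∈ q, k < i ∧ ∃ l ∈ Mh δ G q R m k, tl l ∈ R ∧ l' = δ (tl l) k :: l}

/-- The pairs at which the values of `δ` are used. -/
def Rel (δ : Cardinal.{0} → S → Ordinal.{0}) (G q : Set S) (R : Set Cardinal.{0}) (m : ℕ)
    (t : Cardinal.{0}) (k : S) : Prop :=
  k ∈ q ∧ t ∈ R ∧ ∃ l ∈ Mh ty tl δ G q R m k, tl l = t

open Classical in
/-- Restriction to the relevant pairs. -/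
noncomputable def restr (δ : Cardinal.{0} → S → Ordinal.{0}) (G q : Set S) (R : Set Cardinal.{0})
    (m : ℕ) : Cardinal.{0} → S → Ordinal.{0} :=
  fun t k => if Rel ty tl δ G q R m t k then δ t k else 0

/-- The relevant cardinals. -/
def Bm (δ : Cardinal.{0} → S → Ordinal.{0}) (G q : Set S) (R : Set Cardinal.{0}) (m : ℕ) :
    Set Cardinal.{0} := {t | ∃ k, Rel ty tl δ G q R m t k}

variable {ty tl} {δ δ' : Cardinal.{0} → S → Ordinal.{0}} {G G' q q' : Set S}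
  {R R' : Set Cardinal.{0}}

lemma Mh_mono (hG : G ⊆ G') (hq : q ⊆ q') (hR : R ⊆ R') (m : ℕ) :
    ∀ {i i' : S}, i ≤ i' → Mh ty tl δ G q R m i ⊆ Mh ty tl δ G' q' R' m i' := by
  induction m with
  | zero => exact fun _ => subset_rfl
  | succ m ih =>
    rintro i i' h l' ((hl | ⟨l, hl, j, hj, hji, rfl⟩) | ⟨k, hk, hki, l, hl, hlR, rfl⟩)
    · exact Or.inl (Or.inl (ih h hl))
    · exact Or.inl (Or.inr ⟨l, ih h hl, j, hG hj, hji.trans_le h, rfl⟩)
    · exact Or.inr ⟨k, hq hk, hki.trans_le h, l, ih le_rfl hl, hR hlR, rfl⟩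

lemma Mh_mono_depth {m m' : ℕ} (h : m ≤ m') (i : S) :
    Mh ty tl δ G q R m i ⊆ Mh ty tl δ G q R m' i := by
  induction h with
  | refl => exact subset_rfl
  | step _ ih => exact fun l hl => Or.inl (Or.inl (ih hl))

lemma nil_mem_Mh (m : ℕ) (i : S) : [] ∈ Mh ty tl δ G q R m i :=
  Mh_mono_depth (Nat.zero_le m) i rfl

lemma Mh_countable (hG : G.Countable) (hq : q.Countable) (m : ℕ) :
    ∀ i, (Mh ty tl δ G q R m i).Countable := by
  induction m with
  | zero => exact fun _ => countable_singleton _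
  | succ m ih =>
    intro i
    refine ((ih i).union ((((ih i).prod hG).image fun p => ty p.2 :: p.1).mono ?_)).union
      ((hq.biUnion fun k _ => (ih k).image fun l => δ (tl l) k :: l).mono ?_)
    · rintro _ ⟨l, hl, j, hj, -, rfl⟩
      exact ⟨(l, j), ⟨hl, hj⟩, rfl⟩
    · rintro _ ⟨k, hk, -, l, hl, -, rfl⟩
      exact mem_biUnion hk ⟨l, hl, rfl⟩

lemma Rel.mono (hG : G ⊆ G') (hq : q ⊆ q') {m m' : ℕ} (hm : m ≤ m') {t : Cardinal.{0}} {k : S}
    (h : Rel ty tl δ G q R m t k) : Rel ty tl δ G' q' R m' t k := by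
  obtain ⟨h1, h2, l, h3, h4⟩ := h
  exact ⟨hq h1, h2, l, Mh_mono_depth hm k (Mh_mono hG hq subset_rfl m le_rfl h3), h4⟩

lemma Mh_congr {m : ℕ} (h : ∀ t k, Rel ty tl δ G q R m t k → δ t k = δ' t k) (m' : ℕ) :
    m' ≤ m + 1 → ∀ i, Mh ty tl δ G q R m' i = Mh ty tl δ' G q R m' i := by
  induction m' with
  | zero => exact fun _ _ => rfl
  | succ m' ih =>
    intro hm i
    have ih' := ih (by omega)
    have h1 : ∀ k ∈ q, ∀ l ∈ Mh ty tl δ G q R m' k, tl l ∈ R → δ (tl l) k = δ' (tl l) k :=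
      fun k hk l hl hR => h _ _ ⟨hk, hR, l, Mh_mono_depth (by omega) k hl, rfl⟩
    simp only [Mh]
    rw [ih' i]
    congr 1
    ext l'
    constructor
    · rintro ⟨k, hk, hki, l, hl, hR, rfl⟩
      exact ⟨k, hk, hki, l, ih' k ▸ hl, hR, by rw [h1 k hk l hl hR]⟩
    · rintro ⟨k, hk, hki, l, hl, hR, rfl⟩
      rw [← ih' k] at hl
      exact ⟨k, hk, hki, l, hl, hR, by rw [h1 k hk l hl hR]⟩

lemma Rel_congr {m : ℕ} (h : ∀ t k, Rel ty tl δ G q R m t k → δ t k = δ' t k) {m' : ℕ}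
    (hm : m' ≤ m + 1) : Rel ty tl δ G q R m' = Rel ty tl δ' G q R m' := by
  funext t k
  unfold Rel
  rw [Mh_congr h m' hm k]

lemma Bm_congr {m : ℕ} (h : ∀ t k, Rel ty tl δ G q R m t k → δ t k = δ' t k) {m' : ℕ}
    (hm : m' ≤ m + 1) : Bm ty tl δ G q R m' = Bm ty tl δ' G q R m' := by
  unfold Bm
  rw [Rel_congr h hm]

lemma restr_congr {m : ℕ} (h : ∀ t k, Rel ty tl δ G q R m t k → δ t k = δ' t k) :
    restr ty tl δ G q R m = restr ty tl δ' G q R m := by
  funext t k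
  unfold restr
  rw [← Rel_congr h (Nat.le_succ m)]
  split_ifs with h'
  · exact h t k h'
  · rfl

lemma restr_of_rel {m : ℕ} {t : Cardinal.{0}} {k : S} (h : Rel ty tl δ G q R m t k) :
    δ t k = restr ty tl δ G q R m t k := by
  unfold restr
  rw [if_pos h]

lemma restr_restr (hG : G ⊆ G') (hq : q ⊆ q') {m : ℕ} :
    restr ty tl (restr ty tl δ G' q' R m) G q R m = restr ty tl δ G q R m :=
  (restr_congr fun _ _ h => restr_of_rel (h.mono hG hq le_rfl)).symm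

lemma Mh_restr (m : ℕ) (i : S) :
    Mh ty tl (restr ty tl δ G q R m) G q R m i = Mh ty tl δ G q R m i :=
  (Mh_congr (fun _ _ h => restr_of_rel h) m (Nat.le_succ m) i).symm

lemma Bm_countable (hG : G.Countable) (hq : q.Countable) (m : ℕ) :
    (Bm ty tl δ G q R m).Countable := by
  refine (hq.biUnion fun k _ => (Mh_countable (ty := ty) (tl := tl) (δ := δ) (R := R)
    hG hq m k).image tl).mono ?_
  rintro t ⟨k, h1, -, l, h2, h3⟩
  exact mem_biUnion h1 ⟨l, h2, h3⟩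

variable (ty tl)

/-- The values at relevant pairs follow canonical approaches given by a small family. -/
def Coded (Fam : Set Cardinal.{0} → Set (Cardinal.{0} → Ordinal.{0}))
    (δ : Cardinal.{0} → S → Ordinal.{0}) (G q : Set S) (R : Set Cardinal.{0}) (n : ℕ) : Prop :=
  ∀ m ≤ n, ∃ g ∈ Fam (Bm ty tl δ G q R m), ∀ t k, Rel ty tl δ G q R m t k → δ t k = ee S (g t) k

/-- The allowed node data. -/
def Allowed (Fam : Set Cardinal.{0} → Set (Cardinal.{0} → Ordinal.{0}))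
    (G q : Set S) (R : Set Cardinal.{0}) (n : ℕ) : Set (Cardinal.{0} → S → Ordinal.{0}) :=
  {d | ∃ δ, Coded ty tl Fam δ G q R n ∧ d = restr ty tl δ G q R n}

lemma mk_Allowed {Fam : Set Cardinal.{0} → Set (Cardinal.{0} → Ordinal.{0})} {c : Cardinal.{1}}
    (hc : ℵ₀ ≤ c) (hF : ∀ B, #(Fam B) ≤ c) (G q : Set S) (R : Set Cardinal.{0}) (n : ℕ) :
    #(Allowed ty tl Fam G q R n) ≤ c := by
  classical
  let Ψ : ℕ → (Cardinal.{0} → S → Ordinal.{0}) → (Cardinal.{0} → Ordinal.{0}) →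
      Cardinal.{0} → S → Ordinal.{0} :=
    fun m d g t k => if Rel ty tl d G q R m t k then ee S (g t) k else 0
  have key : ∀ m δ g, (∀ t k, Rel ty tl δ G q R m t k → δ t k = ee S (g t) k) →
      restr ty tl δ G q R m = Ψ m δ g := by
    intro m δ g h
    funext t k
    simp only [restr, Ψ]
    split_ifs with h'
    · exact h t k h'
    · rfl
  induction n with
  | zero =>
    refine le_trans (mk_le_mk_of_subset (t := Ψ 0 0 '' Fam (Bm ty tl 0 G q R 0)) ?_)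
      (mk_image_le.trans (hF _))
    rintro _ ⟨δ, hδ, rfl⟩
    obtain ⟨g, hg, h⟩ := hδ 0 le_rfl
    exact ⟨g, hg, (key 0 δ g h).symm⟩
  | succ n ih =>
    refine le_trans (mk_le_mk_of_subset (t := ⋃ d ∈ Allowed ty tl Fam G q R n,
      Ψ (n + 1) d '' Fam (Bm ty tl d G q R (n + 1))) ?_)
      (mk_biUnion_le'' hc ih fun d _ => mk_image_le.trans (hF _))
    rintro _ ⟨δ, hδ, rfl⟩
    obtain ⟨g, hg, h⟩ := hδ (n + 1) le_rfl
    have h1 : ∀ t k, Rel ty tl δ G q R n t k → δ t k = restr ty tl δ G q R n t k :=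
      fun _ _ h => restr_of_rel h
    refine mem_biUnion (x := restr ty tl δ G q R n)
      ⟨δ, fun m hm => hδ m (hm.trans (Nat.le_succ n)), rfl⟩ ⟨g, Bm_congr h1 le_rfl ▸ hg, ?_⟩
    rw [key _ δ g h]
    simp only [Ψ]
    rw [Rel_congr h1 le_rfl]

end

/-- An enumeration of a countable set of cardinals. -/
noncomputable def enB (B : Set Cardinal.{0}) : ℕ → Cardinal.{0} :=
  Classical.epsilon fun θ => B = range θ

/-- The small family attached to a set of cardinals. -/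
def Fam (S : Type) [LinearOrder S] (κ : Cardinal.{0}) (B : Set Cardinal.{0}) :
    Set (Cardinal.{0} → Ordinal.{0}) :=
  insert 0 ((fun g t => g (Function.invFun (enB B) t)) '' Gfam S (enB B) κ)

lemma mk_Fam (S : Type) [LinearOrder S] {κ : Cardinal.{0}} (hκ : ℵ₀ ≤ κ) (B : Set Cardinal.{0}) :
    #(Fam S κ B) ≤ Cardinal.lift.{1} κ := by
  have hκ' : ℵ₀ ≤ Cardinal.lift.{1} κ := by simpa using hκ
  exact mk_insert_le.trans (add_le_of_le hκ' (mk_image_le.trans (mk_Gfam S _ hκ))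
    (one_le_aleph0.trans hκ'))

lemma exists_mem_Fam {S : Type} [LinearOrder S] [WellFoundedLT S] [IsRegularCardinalOrder S]
    (hS : ℵ_ 1 ≤ #S) {N : S → Set Ordinal.{0}} (hN : Chain N) {B : Set Cardinal.{0}}
    (hB : B.Countable) {κ : Cardinal.{0}} (hreg : ∀ t ∈ B, t.IsRegular ∧ #S < t)
    (hκ : ∀ θ : ℕ → Cardinal.{0}, (∀ n, θ n ∈ B) → ∀ U : Ultrafilter ℕ, CofLe θ U κ) (x : S)
    (hΦ : ∀ k k', x ≤ k → k < k' → Phi (enB B) (N '' Iic k) ⊆ N k') :
    ∃ g ∈ Fam S κ B, ∀ t ∈ B, g t = chs (⋃ k, N k) t := by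
  rcases B.eq_empty_or_nonempty with rfl | hne
  · exact ⟨0, Or.inl rfl, by simp⟩
  have h1 : B = range (enB B) :=
    Classical.epsilon_spec (p := fun θ => B = range θ) (hB.exists_eq_range hne)
  have h2 : ∀ n, enB B n ∈ B := fun n => h1.ge ⟨n, rfl⟩
  refine ⟨_, Or.inr ⟨_, eps_mem_Gfam hS hN (fun n => hreg _ (h2 n)) (hκ _ h2) x hΦ, rfl⟩,
    fun t ht => ?_⟩
  simp only
  rw [Function.invFun_eq (h1.le ht)]

end Pool.Agent.Work.MP_d02fb9_lc.S
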