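import Pool.Agent.Work.MP_d02fb9_lc.S.Pieces

/-!
The bound from a small number of classes with small countable products.
-/

namespace Pool.Agent.Work.MP_d02fb9_lc.S

open Cardinal Set Order Filter Pool.Agent.Lib.ClubGuess

lemma exists_dom_of_lt {F : Set (ℕ → ℕ)} (hF : #F < bddNum) : ∃ g, ∀ f ∈ F, Dom f g := by
  by_contra hcon
  have : bddNum ≤ #F := csInf_le' ⟨F, hcon, rfl⟩
  exact this.not_gt hF

lemma bddNum_le_domNum : bddNum ≤ domNum := by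
  obtain ⟨F, hF, hc⟩ := exists_dominating
  by_contra! h
  obtain ⟨g, hg⟩ := exists_dom_of_lt (hc.le.trans_lt h)
  obtain ⟨f, hf, h1⟩ := hF fun n => g n + 1
  obtain ⟨n, hn⟩ := (h1.trans (hg f hf)).exists
  exact absurd hn (by simp)

lemma exists_chain {S : Type} [LinearOrder S] [WellFoundedLT S] [IsRegularCardinalOrder S]
    {ρ : Cardinal.{0}} (hρ : ℵ₀ ≤ ρ) (hS : #S = succ ρ)
    (Ψ : S → (S → Set Ordinal.{0}) → Set Ordinal.{0})
    (hloc : ∀ j N N', (∀ i ≤ j, N i = N' i) → Ψ j N = Ψ j N')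
    (hsize : ∀ j N, (∀ i ≤ j, #(N i) ≤ Cardinal.lift.{1} ρ) → #(Ψ j N) ≤ Cardinal.lift.{1} ρ) :
    ∃ N : S → Set Ordinal.{0}, Chain N ∧ (∀ k, #(N k) ≤ Cardinal.lift.{1} ρ) ∧
      ∀ j k, j < k → Ψ j N ⊆ N k := by
  have hρ' : ℵ₀ ≤ Cardinal.lift.{1} ρ := by simpa using hρ
  let Nf : (S → Set Ordinal.{0}) → S → Set Ordinal.{0} := fun M i => ⋃ k : Iio i, M k.1
  obtain ⟨M, hM⟩ := exists_rec (S := S) (β := Set Ordinal.{0})
    (fun j M => Ψ j (Nf M) ∪ (fun a => chs (Nf M j) a.card) '' Nf M j) (fun j M M' h => by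
      have h1 : ∀ i ≤ j, Nf M i = Nf M' i := fun i hi =>
        iUnion_congr fun k => h k.1 (k.2.trans_le hi)
      rw [hloc j _ _ h1, h1 j le_rfl])
  have hsub : ∀ j k, j < k → M j ⊆ Nf M k := fun j k h =>
    subset_iUnion (fun k' : Iio k => M k'.1) ⟨j, h⟩
  have h1 : ∀ k, (∀ j < k, #(M j) ≤ Cardinal.lift.{1} ρ) → #(Nf M k) ≤ Cardinal.lift.{1} ρ :=
    fun k h => mk_iUnion_le0 hρ (lt_succ_iff.1 ((mk_Iio_lt' k).trans_eq hS)) fun j => h j.1 j.2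
  have h2 : ∀ k, #(M k) ≤ Cardinal.lift.{1} ρ := by
    intro k
    induction k using WellFoundedLT.induction with
    | ind k IH =>
    rw [hM k]
    exact mk_union_le' hρ' (hsize k _ fun i hi => h1 i fun j hj => IH j (hj.trans_le hi))
      (mk_image_le.trans (h1 k IH))
  have h3 : ∀ k, #(Nf M k) ≤ Cardinal.lift.{1} ρ := fun k => h1 k fun j _ => h2 j
  refine ⟨Nf M, ⟨fun i j h => iUnion_subset fun k => hsub _ _ (k.2.trans_le h), fun b hb a ha => ?_,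
    fun k => (h3 k).trans (lift_le.2 (hS ▸ le_succ ρ)), fun k k' h t ht => hsub k k' h ?_⟩, h3,
    fun j k h => subset_trans ?_ (hsub j k h)⟩
  · obtain ⟨k, hk⟩ := mem_iUnion.1 ha
    obtain ⟨i, h1, h2⟩ := hb.isSuccPrelimit.lt_iff_exists_lt.1 k.2
    exact ⟨i, h1, hsub _ _ h2 hk⟩
  · rw [hM k]
    exact Or.inr ⟨_, ht, by simp only [card_ord]⟩
  · rw [hM j]
    exact subset_union_left

theorem mk_lt_of_classes {κ μ : Cardinal.{0}} (hd : domNum ≤ κ) (hμ : ℵ₀ ≤ μ)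
    (hfix : cofCtble μ ≤ μ) (hb : μ < bddNum) {ι : Type} (hι : #ι ≤ μ)
    (R : ι → Set Cardinal.{0}) (hR : ∀ j, SmallProducts (R j) κ)
    (hcov : ∀ Y, ℵ₀ < (locDom Y).ord.cof → ∃ j, (locDom Y).ord.cof ∈ R j)
    {X : Type} [TopologicalSpace X] [T3Space X] (hX : StronglyStarMenger X) {D : Set X}
    (hD : IsClosed D) [DiscreteTopology D] : #D < κ := by
  classical
  have hμ1 : ℵ₀ ≤ succ μ := hμ.trans (le_succ μ)
  have hμ2 : ℵ₀ ≤ succ (succ μ) := hμ1.trans (le_succ _)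
  have hμμ : μ ≤ succ (succ μ) := (le_succ μ).trans (le_succ _)
  have hc1 : Cov' (succ μ) := (cov'_of_cofCtble hfix).of_succ hμ
  have hc2 : Cov' (succ (succ μ)) := hc1.of_succ hμ1
  have hμκ : μ < κ := hb.trans_le (bddNum_le_domNum.trans hd)
  have hκ0 : ℵ₀ < κ := hμ.trans_lt hμκ
  have hκ' : ℵ₀ ≤ Cardinal.lift.{1} κ := by simpa using hκ0.le
  rcases le_or_gt κ (succ (succ μ)) with h3 | h3
  · obtain ⟨hh, hdom⟩ := exists_hh hd
    refine mk_lt_of_cov hκ0 (Cov'.cov ?_) hh hdom hX hD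
    rcases h3.eq_or_lt with rfl | h3
    · exact hc2
    · rwa [(lt_succ_iff.1 h3).antisymm (succ_le_of_lt hμκ)]
  obtain ⟨S, _, _, _, hS⟩ : ∃ (S : Type) (_ : LinearOrder S) (_ : WellFoundedLT S)
      (_ : IsRegularCardinalOrder S), #S = succ (succ (succ μ)) :=
    ⟨_, _, _, isRegularCardinalOrder_toType (isRegular_succ hμ2), mk_ord_toType _⟩
  have hSκ : #S ≤ κ := hS ▸ succ_le_of_lt h3
  have hS0 : ℵ₀ < #S := hS ▸ hμ2.trans_lt (lt_succ _)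
  have hS1 : ℵ_ 1 ≤ #S := by
    rw [← succ_aleph0]
    exact succ_le_of_lt hS0
  have hSne : Nonempty S := mk_ne_zero_iff.1 (aleph0_pos.trans hS0).ne'
  have hρ' : ℵ₀ ≤ Cardinal.lift.{1} (succ (succ μ)) := aleph0_le_lift.2 hμ2
  have hIic : ∀ j : S, #(Iic j) ≤ succ (succ μ) := fun j =>
    lt_succ_iff.1 ((mk_Iic_lt hS0.le j).trans_eq hS)
  have hTy : #(Finset ι × ℕ) ≤ μ := by
    rw [mk_prod, lift_id, lift_id, mk_nat]
    refine (mul_le_mul' ?_ hμ).trans (mul_eq_self hμ).le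
    refine (mk_le_of_surjective (f := List.toFinset) List.toFinset_surjective).trans ?_
    exact (mk_list_le_max _).trans (max_le hμ hι)
  obtain ⟨qq, GG, hG1, hG2, hqG, hguess⟩ := appr_guess hμ hc2 hS
  obtain ⟨pc, top, pos, hpc⟩ := exists_pieces
  obtain ⟨V, hV, hv⟩ := exists_small_family hμ
  choose v hv1 hv2 hv3 using fun k : S =>
    hv S (Iio k) ((mk_le_mk_of_subset Iio_subset_Iic_self).trans (hIic k))
  choose! bd hbd using fun (F : Set (ℕ → ℕ)) (hF : #F < bddNum) => exists_dom_of_lt hF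
  let ty : S → Ordinal.{0} := fun j => Ordinal.typein (α := S) (· < ·) j
  let ev : List Ordinal.{0} → Set (ℕ → ℕ) := fun l => l.foldr (fun η Y => pc Y η) univ
  let tl : List Ordinal.{0} → Cardinal.{0} := fun l => (locDom (ev l)).ord.cof
  let Rt : Finset ι → Set Cardinal.{0} := fun τ => {θ | θ.IsRegular ∧ #S < θ ∧ ∃ j ∈ τ, θ ∈ R j}
  let I : Set (S × (Finset ι × ℕ) × (Cardinal.{0} → S → Ordinal.{0})) :=
    {t | t.2.2 ∈ Allowed ty tl (Fam S κ) (GG t.1) (qq t.1) (Rt t.2.1.1) t.2.1.2}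
  let xs : I → Set (ℕ → ℕ) := fun t =>
    (fun l => top (ev l)) '' Mh ty tl t.1.2.2 (GG t.1.1) (qq t.1.1) (Rt t.1.2.1.1) t.1.2.1.2 t.1.1
  let pred : I → Set I := fun t => {t' | t'.1.1 ∈ GG t.1.1 ∧ GG t'.1.1 ⊆ GG t.1.1 ∧
    qq t'.1.1 ⊆ qq t.1.1 ∧ t'.1.2.1 = t.1.2.1 ∧
    t'.1.2.2 = restr ty tl t.1.2.2 (GG t'.1.1) (qq t'.1.1) (Rt t.1.2.1.1) t.1.2.1.2}
  refine mk_lt_of_core hκ0.le (ι := I) ?_ xs pred ?_ ?_ ?_ ?_ hX hD
  · refine le_trans (mk_le_mk_of_subset (t := ⋃ p : S × (Finset ι × ℕ), (fun d => (p.1, p.2, d)) ''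
      Allowed ty tl (Fam S κ) (GG p.1) (qq p.1) (Rt p.2.1) p.2.2) ?_)
      (mk_iUnion_le0 hκ0.le ?_ fun p => mk_image_le.trans
        (mk_Allowed ty tl hκ' (mk_Fam S hκ0.le) _ _ _ _))
    · rintro ⟨x, τ, d⟩ h
      exact mem_iUnion.2 ⟨(x, τ), d, h, rfl⟩
    · rw [mk_prod, lift_id, lift_id]
      exact (mul_le_mul' hSκ (hTy.trans hμκ.le)).trans (mul_eq_self hκ0.le).le
  · exact fun t => (Mh_countable (hG1 _) ((hG1 _).mono (hqG _)) _ _).image _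
  · intro t
    have hc : ((fun x' => (x', t.1.2.1,
        restr ty tl t.1.2.2 (GG x') (qq x') (Rt t.1.2.1.1) t.1.2.1.2)) '' GG t.1.1).Countable :=
      (hG1 _).image _
    refine (hc.preimage Subtype.val_injective).mono ?_
    rintro ⟨⟨x', τ', d'⟩, h'⟩ ⟨h1, -, -, e1, e2⟩
    simp only at e1 e2
    subst e1 e2
    exact ⟨x', h1, rfl⟩
  · exact fun t h => lt_irrefl _ (mem_Iio.1 (hG2 _ h.1))
  intro H
  let nd : (Cardinal.{0} → S → Ordinal.{0}) → S → Finset ι × ℕ →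
      S × (Finset ι × ℕ) × (Cardinal.{0} → S → Ordinal.{0}) :=
    fun δ x τ => (x, τ, restr ty tl δ (GG x) (qq x) (Rt τ.1) τ.2)
  let H' : S × (Finset ι × ℕ) × (Cardinal.{0} → S → Ordinal.{0}) → ℕ → ℕ :=
    fun t => if h : t ∈ I then H ⟨t, h⟩ else 0
  let aa : (Cardinal.{0} → S → Ordinal.{0}) → S → V → ℕ → ℕ :=
    fun δ k r => bd (range fun p : v k r × (Finset ι × ℕ) => H' (nd δ p.1.1 p.2))
  let ch : (S → Set Ordinal.{0}) → Cardinal.{0} → S → Ordinal.{0} := fun N t k => chs (N k) t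
  let Ψ : S → (S → Set Ordinal.{0}) → Set Ordinal.{0} := fun j N =>
    ((insert (ty j) ((fun l => (tl l).ord) '' {l | ∀ a ∈ l, a ∈ N j})) ∪
      ⋃ p : Iic j × V, (fun l => pos (aa (ch N) p.1.1 p.2) (ev l)) '' {l | ∀ a ∈ l, a ∈ N j}) ∪
      ⋃ p : Iic j × (Finset ι × ℕ),
        Phi (enB (Bm ty tl (ch N) (GG p.1.1) (qq p.1.1) (Rt p.2.1) p.2.2)) (N '' Iic j)
  obtain ⟨N, hN, hNs, hΨ⟩ := exists_chain hμ2 hS Ψ (by
    intro j N N' h
    have e0 : ∀ x ≤ j, ∀ R' m t k, Rel ty tl (ch N) (GG x) (qq x) R' m t k →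
        ch N t k = ch N' t k := by
      intro x hx R' m t k hk
      simp only [ch]
      rw [h k ((mem_Iio.1 (hG2 x (hqG x hk.1))).le.trans hx)]
    have e1 : ∀ k ≤ j, ∀ r, aa (ch N) k r = aa (ch N') k r := by
      intro k hk r
      simp only [aa, nd]
      congr 2
      funext p
      rw [restr_congr (e0 p.1.1 ((mem_Iio.1 (hv2 k r p.1.2)).le.trans hk) _ _)]
    have e2 : N '' Iic j = N' '' Iic j := image_congr h
    simp only [Ψ]
    rw [h j le_rfl, e2]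
    refine congrArg₂ (· ∪ ·) (congrArg₂ (· ∪ ·) rfl (iUnion_congr fun p => ?_))
      (iUnion_congr fun p => ?_)
    · rw [e1 p.1.1 p.1.2]
    · rw [Bm_congr (e0 p.1.1 p.1.2 _ p.2.2) (Nat.le_succ _)]) (by
    intro j N h
    have h1 := mk_lists_le hρ' (h j le_rfl)
    refine mk_union_le' hρ' (mk_union_le' hρ' (mk_insert_le.trans (add_le_of_le hρ'
      (mk_image_le.trans h1) (one_le_aleph0.trans hρ'))) (mk_iUnion_le0 hμ2 ?_ fun p =>
        mk_image_le.trans h1)) (mk_iUnion_le0 hμ2 ?_ fun p => mk_Phi _ hρ' ?_ ?_)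
    · rw [mk_prod, lift_id, lift_id]
      exact (mul_le_mul' (hIic j) hV).trans (mul_eq_self hμ2).le
    · rw [mk_prod, lift_id, lift_id]
      exact (mul_le_mul' (hIic j) (hTy.trans hμμ)).trans (mul_eq_self hμ2).le
    · have h2 := mk_image_le_lift (f := N) (s := Iic j)
      rw [lift_uzero] at h2
      exact h2.trans (lift_le.2 (hIic j))
    · rintro _ ⟨i, hi, rfl⟩
      exact h i hi)
  have hφ : ∀ y, ∃ b, ∀ j, ty j ∈ N y → j < b := by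
    intro y
    refine exists_gt_of_mk_lt (s := ty ⁻¹' N y) ?_
    have h1 := mk_preimage_of_injective_lift ty (N y) (Ordinal.typein_injective _)
    rw [lift_uzero] at h1
    exact (lift_le.1 (h1.trans (hNs y))).trans_lt (hS ▸ lt_succ _)
  choose φ hφ using hφ
  obtain ⟨D₁, hD₁, hD₁'⟩ := exists_club_lim hS0 φ
  have hE : ∀ y, ∃ E : Set S, IsClub E ∧ ∀ t : Cardinal.{0}, t.IsRegular → #S < t → t.ord ∈ N y →
      ∀ k ∈ E, ch N t k = ee S (chs (⋃ k, N k) t) k := by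
    intro y
    have h1 : ∀ a : N y, ∃ E : Set S, IsClub E ∧ ∀ t : Cardinal.{0}, t.IsRegular → #S < t →
        t.ord = a.1 → ∀ k ∈ E, ch N t k = ee S (chs (⋃ k, N k) t) k := by
      intro a
      by_cases h : ∃ t : Cardinal.{0}, t.IsRegular ∧ #S < t ∧ t.ord = a.1
      · obtain ⟨t, h1, h2, h3⟩ := h
        obtain ⟨E, hE, hE'⟩ := (hN.appr hS0 h1 h2 (h3 ▸ a.2 : t.ord ∈ N y)).agree hS0
        refine ⟨E, hE, fun t' _ _ h4 => ?_⟩
        obtain rfl : t' = t := ord_injective (h4.trans h3.symm)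
        exact hE'
      · exact ⟨univ, IsClub.univ, fun t h1 h2 h3 => absurd ⟨t, h1, h2, h3⟩ h⟩
    choose E hE hE' using h1
    refine ⟨⋂ a, E a, IsClub.iInter (cof_ne_aleph0 hS0) ?_ hE, fun t h1 h2 h3 k hk =>
      hE' ⟨_, h3⟩ t h1 h2 rfl k (mem_iInter.1 hk _)⟩
    rw [cof_eq_cardinalMk, lift_uzero]
    exact (hNs y).trans_lt (lift_lt.2 (hS ▸ lt_succ _))
  choose E hE hE' using hE
  obtain ⟨D₂, hD₂, hD₂'⟩ := exists_diag hS0 E hE
  obtain ⟨C, hCD, hnext, hC1, hC2⟩ := hguess _ (hD₁.inter (cof_ne_aleph0 hS0) hD₂)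
  have hlim : ∀ k ∈ C, IsSuccLimit k := fun k hk => (hD₁' k (hCD hk).1).1
  have htl : ∀ k ∈ C, ∀ l : List Ordinal.{0}, (∀ a ∈ l, a ∈ N k) → (tl l).ord ∈ N k := by
    intro k hk l hl
    obtain ⟨j, hj, h⟩ := list_bound hN (hlim k hk) hl
    exact hΨ j k hj (Or.inl (Or.inl (Or.inr ⟨l, h, rfl⟩)))
  have hull : ∀ G q R', q ⊆ C → ∀ m, ∀ k, ∀ l ∈ Mh ty tl (ch N) G q R' m k, ∀ a ∈ l, a ∈ N k := by
    intro G q R' hq m
    induction m with
    | zero =>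
      rintro k _ rfl
      simp
    | succ m ih =>
      rintro k l' ((hl | ⟨l, hl, j, -, hj, rfl⟩) | ⟨k', hk', hkk, l, hl, -, rfl⟩) a ha
      · exact ih k _ hl a ha
      · rcases List.mem_cons.1 ha with rfl | ha
        · exact hΨ j k hj (Or.inl (Or.inl (Or.inl rfl)))
        · exact ih k _ hl a ha
      · rcases List.mem_cons.1 ha with rfl | ha
        · exact hN.ch k' k hkk _ (htl k' (hq hk') l (ih k' l hl))
        · exact hN.mono hkk.le (ih k' l hl a ha)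
  let good : S → Prop := fun x => (∃ k ∈ C, x < k) ∧ qq x = C ∩ GG x
  have hqC : ∀ x, good x → qq x ⊆ C := fun x hx => hx.2 ▸ inter_subset_left
  have hnode : ∀ x, good x → ∀ τ, nd (ch N) x τ ∈ I := by
    intro x hx τ
    refine ⟨ch N, fun m _ => ?_, rfl⟩
    obtain ⟨g, hg, h⟩ := exists_mem_Fam hS1 hN
      (Bm_countable (ty := ty) (tl := tl) (δ := ch N) (R := Rt τ.1) (hG1 x)
        ((hG1 x).mono (hqG x)) m) (κ := κ)
      (by rintro t ⟨k, -, h, -⟩; exact ⟨h.1, h.2.1⟩)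
      (fun θ hθ => cofLe_of_small hR τ.1 θ fun n => by
        obtain ⟨k, -, h, -⟩ := hθ n
        exact ⟨h.1, h.2.2⟩) x
      (fun k k' h1 h2 => subset_trans (subset_trans (subset_iUnion (fun p : Iic k × (Finset ι × ℕ) =>
        Phi (enB (Bm ty tl (ch N) (GG p.1.1) (qq p.1.1) (Rt p.2.1) p.2.2)) (N '' Iic k))
        (⟨x, h1⟩, τ.1, m)) subset_union_right) (hΨ k k' h2))
    refine ⟨g, hg, fun t k hk => ?_⟩
    rw [h t ⟨k, hk⟩]
    obtain ⟨h1, h2, l, h3, rfl⟩ := hk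
    have hkC := hqC x hx h1
    obtain ⟨y, hy, h4⟩ := hN.cont k (hlim k hkC) _ (htl k hkC l (hull _ _ _ (hqC x hx) m k l h3))
    exact hE' y _ h2.1 h2.2.1 h4 k (hD₂' k (hCD hkC).2 y hy)
  have hbel : ∀ x, good x → ∀ a ∈ insert x (GG x), ∃ k ∈ C, a < k := by
    rintro x ⟨⟨k, hk, h⟩, -⟩ a (rfl | ha)
    · exact ⟨k, hk, h⟩
    · exact ⟨k, hk, (mem_Iio.1 (hG2 x ha)).trans h⟩
  have hqm : ∀ x x', good x → good x' → GG x ⊆ GG x' → qq x ⊆ qq x' := fun x x' h h' hs => by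
    rw [h.2, h'.2]
    exact inter_subset_inter_right _ hs
  have hext : ∀ x, good x → ∀ y, (∃ k ∈ C, y < k) →
      ∃ x', good x' ∧ GG x ⊆ GG x' ∧ x ∈ GG x' ∧ y ∈ GG x' := by
    intro x hx y hy
    obtain ⟨x', h1, h2, h3⟩ := hC2 (insert y (insert x (GG x))) (((hG1 x).insert _).insert _) (by
      rintro a (rfl | ha)
      · exact hy
      · exact hbel x hx a ha)
    exact ⟨x', ⟨h1, h3⟩, fun a ha => h2 (Or.inr (Or.inr ha)), h2 (Or.inr (Or.inl rfl)),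
      h2 (Or.inl rfl)⟩
  have hdesc : ∀ k₀ r (c : Cardinal.{0}) x, good x → k₀ ≤ x → ∀ τ : Finset ι × ℕ,
      ∀ l ∈ Mh ty tl (ch N) (GG x) (qq x) (Rt τ.1) τ.2 x, aa (ch N) k₀ r ∈ ev l →
        locDom (ev l) = c → ∃ x', good x' ∧ ∃ τ' : Finset ι × ℕ,
          ∃ l' ∈ Mh ty tl (ch N) (GG x') (qq x') (Rt τ'.1) τ'.2 x',
            Dom (aa (ch N) k₀ r) (top (ev l')) := by
    intro k₀ r c
    induction c using WellFoundedLT.induction with
    | ind c IH =>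
    intro x hx hk₀ τ l hl ha hc
    rcases le_or_gt (locDom (ev l)) ℵ₀ with h0 | h0
    · exact ⟨x, hx, τ, l, hl, (hpc _).1 h0 _ ha⟩
    obtain ⟨h1, h2, h3⟩ := (hpc _).2 h0
    obtain ⟨h4, h5⟩ := h3 _ ha
    obtain ⟨k, hk, hxk⟩ := hx.1
    have hη : pos (aa (ch N) k₀ r) (ev l) ∈ N k := hΨ x k hxk (Or.inl (Or.inr (mem_iUnion.2
      ⟨(⟨k₀, hk₀⟩, r), l, hull _ _ _ (hqC x hx) _ _ l hl, rfl⟩)))
    have hreg : (tl l).IsRegular := isRegular_cof (isSuccLimit_ord h0.le)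
    rcases le_or_gt (tl l) #S with h6 | h6
    · obtain ⟨j, hj⟩ := Ordinal.typein_surj (α := S) (· < ·)
        (o := pos (aa (ch N) k₀ r) (ev l)) (by
          rw [← ord_cardinalMk]
          exact h4.trans_le (ord_le_ord.2 h6))
      obtain ⟨k', hk', hkk⟩ := hnext k hk
      obtain ⟨x', hx', h7, h8, h9⟩ := hext x hx j ⟨k', hk',
        (hφ k j (by simp only [ty]; rwa [hj])).trans ((hD₁' k' (hCD hk').1).2 k hkk)⟩
      have hxx : x ≤ x' := (mem_Iio.1 (hG2 _ h8)).le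
      refine IH _ ?_ x' hx' (hk₀.trans hxx) (τ.1, τ.2 + 1) (ty j :: l) (Or.inl (Or.inr
        ⟨l, Mh_mono h7 (hqm _ _ hx hx' h7) subset_rfl _ hxx hl, j, h9, hG2 _ h9, rfl⟩)) ?_ rfl
      · rw [← hc]
        exact h1 _ (by simp only [ty]; rwa [hj])
      · change _ ∈ pc (ev l) (ty j)
        simp only [ty]
        rwa [hj]
    · obtain ⟨j, hj⟩ := hcov (ev l) (hS0.trans h6)
      obtain ⟨x', hx', h7, -, h9⟩ := hext x hx k (hnext k hk)
      have hkx : k < x' := hG2 _ h9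
      refine IH _ ?_ x' hx' (hk₀.trans (hxk.trans hkx).le) (insert j τ.1, τ.2 + 1)
        (ch N (tl l) k :: l) (Or.inr ⟨k, hx'.2 ▸ ⟨hk, h9⟩, hkx, l,
          Mh_mono h7 (hqm _ _ hx hx' h7) ?_ _ hxk.le hl,
          ⟨hreg, h6, j, Finset.mem_insert_self _ _, hj⟩, rfl⟩) ?_ rfl
      · rw [← hc]
        exact h1 _ (chs_lt hreg h6 (hN.size k))
      · rintro θ ⟨e1, e2, i, hi, e3⟩
        exact ⟨e1, e2, i, Finset.mem_insert_of_mem hi, e3⟩
      · exact h2 _ _ (lt_chs hη h4).le h5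
  have hτ : ∃ τ : Finset ι × ℕ, ∀ x, good x → ∃ x', good x' ∧
      ∃ l ∈ Mh ty tl (ch N) (GG x') (qq x') (Rt τ.1) τ.2 x',
        Dom (H' (nd (ch N) x τ)) (top (ev l)) := by
    by_contra! hcon
    choose y hy1 hy2 using hcon
    obtain ⟨k₀, hk₀, h1⟩ := hC1 (range y) (mk_range_le.trans hTy) (by
      rintro _ ⟨τ, rfl⟩
      exact (hy1 τ).1)
    obtain ⟨r, hr⟩ := hv3 k₀ (range y) h1 (mk_range_le.trans hTy)
    obtain ⟨x, h2, h3, h4⟩ := hC2 {k₀} (countable_singleton _) (by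
      rintro _ rfl
      exact hnext _ hk₀)
    obtain ⟨x', hx', τ, l, hl, h5⟩ := hdesc k₀ r _ x ⟨h2, h4⟩ (mem_Iio.1 (hG2 _ (h3 rfl))).le
      (∅, 0) [] rfl trivial rfl
    refine hy2 τ x' hx' l hl (Dom.trans (hbd _ (mk_range_le.trans_lt ?_) _
      ⟨(⟨y τ, hr ⟨τ, rfl⟩⟩, τ), rfl⟩) h5)
    rw [mk_prod, lift_id, lift_id]
    exact ((mul_le_mul' (hv1 k₀ r) hTy).trans (mul_eq_self hμ).le).trans_lt hb
  obtain ⟨τ, hτ⟩ := hτ
  have hmono : ∀ x x' (hx : good x) (hx' : good x'), GG x ⊆ GG x' → x ∈ GG x' →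
      pred ⟨_, hnode x hx τ⟩ ⊆ pred ⟨_, hnode x' hx' τ⟩ ∧
        xs ⟨_, hnode x hx τ⟩ ⊆ xs ⟨_, hnode x' hx' τ⟩ ∧
        (⟨_, hnode x hx τ⟩ : I) ∈ pred ⟨_, hnode x' hx' τ⟩ := by
    intro x x' hx hx' h1 h2
    have h3 := hqm _ _ hx hx' h1
    refine ⟨?_, image_mono ?_, h2, h1, h3, rfl, (restr_restr h1 h3).symm⟩
    · rintro t ⟨e1, e2, e3, e4, e5⟩
      exact ⟨h1 e1, e2.trans h1, e3.trans h3, e4,
        e5.trans ((restr_restr e2 e3).trans (restr_restr (e2.trans h1) (e3.trans h3)).symm)⟩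
    · simp only [nd]
      rw [Mh_restr, Mh_restr]
      exact Mh_mono h1 h3 subset_rfl _ (mem_Iio.1 (hG2 _ h2)).le
  have hdir : ∀ s : Set S, s.Countable → (∀ x ∈ s, good x) →
      ∃ x', good x' ∧ ∀ x ∈ s, GG x ⊆ GG x' ∧ x ∈ GG x' := by
    intro s hs h
    obtain ⟨x', h1, h2, h3⟩ := hC2 (⋃ x ∈ s, insert x (GG x))
      (hs.biUnion fun x _ => (hG1 x).insert _) (fun a ha => by
        obtain ⟨x, hx, h'⟩ := mem_iUnion₂.1 ha
        exact hbel x (h x hx) a h')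
    exact ⟨x', ⟨h1, h3⟩, fun x hx => ⟨fun a ha => h2 (mem_biUnion hx (Or.inr ha)),
      h2 (mem_biUnion hx (Or.inl rfl))⟩⟩
  refine ⟨{t | ∃ x, ∃ hx : good x, t = ⟨_, hnode x hx τ⟩}, fun s hs hsc => ?_, ?_⟩
  · obtain ⟨x', hx', h⟩ := hdir ((fun t : I => t.1.1) '' s) (hsc.image _) (by
      rintro _ ⟨t, ht, rfl⟩
      obtain ⟨x, hx, rfl⟩ := hs ht
      exact hx)
    refine ⟨_, ⟨x', hx', rfl⟩, fun t ht => ?_⟩
    obtain ⟨x, hx, rfl⟩ := hs ht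
    obtain ⟨h1, h2⟩ := h _ ⟨_, ht, rfl⟩
    exact ⟨(hmono x x' hx hx' h1 h2).1, (hmono x x' hx hx' h1 h2).2.1⟩
  · rintro _ ⟨x, hx, rfl⟩
    obtain ⟨y, hy, l, hl, hdom⟩ := hτ x hx
    obtain ⟨x', hx', h⟩ := hdir {x, y} (to_countable _) (by
      rintro _ (rfl | rfl)
      · exact hx
      · exact hy)
    obtain ⟨h1, h2⟩ := h x (Or.inl rfl)
    obtain ⟨h3, h4⟩ := h y (Or.inr rfl)
    obtain ⟨h5, h6, h7⟩ := hmono x x' hx hx' h1 h2
    refine ⟨_, ⟨x', hx', rfl⟩, h5, h6, h7, top (ev l), (hmono y x' hy hx' h3 h4).2.1 ⟨l, ?_, rfl⟩,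
      ?_⟩
    · simp only [nd]
      rwa [Mh_restr]
    · simpa only [H', dif_pos (hnode x hx τ)] using hdom

end Pool.Agent.Work.MP_d02fb9_lc.S
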