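import Pool.Agent.Work.MP_d02fb9_lc.Main
import Mathlib.Order.Filter.Ultrafilter.Basic

/-!
Basic pcf theory for countable products: directedness and universal sequences.
-/

namespace Pool.Agent.Work.MP_d02fb9_lc.S

open Cardinal Set Order Filter Pool.Agent.Lib.ClubGuess

universe u

/-- Membership in the product of the `θ n`. -/
def InP (θ : ℕ → Cardinal.{0}) (f : ℕ → Ordinal.{0}) : Prop := ∀ n, f n < (θ n).ord

/-- At most `μ` functions are cofinal modulo `U`. -/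
def CofLe (θ : ℕ → Cardinal.{0}) (U : Filter ℕ) (μ : Cardinal.{0}) : Prop :=
  ∃ c : Ordinal.{0} → ℕ → Ordinal.{0}, (∀ α, InP θ (c α)) ∧
    ∀ g, InP θ g → ∃ α < μ.ord, ∀ᶠ n in U, g n ≤ c α n

/-- The filter dual to the ideal of sets forcing cofinality at most `μ`. -/
def Fl (θ : ℕ → Cardinal.{0}) (μ : Cardinal.{0}) : Filter ℕ :=
  ⨆ U ∈ {U : Ultrafilter ℕ | ¬ CofLe θ U μ}, (U : Filter ℕ)

/-- The union of the filters below `l`. -/
def Fm (θ : ℕ → Cardinal.{0}) (l : Cardinal.{0}) : Filter ℕ := ⨅ μ ∈ Iio l, Fl θ μ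

/-- All factors are regular and above `σ`. -/
def Prog (σ : Cardinal.{0}) (θ : ℕ → Cardinal.{0}) : Prop := ∀ n, (θ n).IsRegular ∧ σ < θ n

variable {θ : ℕ → Cardinal.{0}} {σ : Cardinal.{0}}

lemma CofLe.mono {U : Filter ℕ} {μ μ' : Cardinal.{0}} (h : CofLe θ U μ) (hμ : μ ≤ μ') :
    CofLe θ U μ' := by
  obtain ⟨c, h1, h2⟩ := h
  refine ⟨c, h1, fun g hg => ?_⟩
  obtain ⟨α, hα, h⟩ := h2 g hg
  exact ⟨α, hα.trans_le (ord_le_ord.2 hμ), h⟩

lemma mem_Fl {μ : Cardinal.{0}} {s : Set ℕ} :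
    s ∈ Fl θ μ ↔ ∀ U : Ultrafilter ℕ, ¬ CofLe θ U μ → s ∈ U := by
  simp [Fl, mem_iSup]

lemma le_Fl {μ : Cardinal.{0}} {U : Ultrafilter ℕ} (h : ¬ CofLe θ U μ) : (U : Filter ℕ) ≤ Fl θ μ :=
  fun _ hs => mem_Fl.1 hs U h

lemma Fl_anti {μ μ' : Cardinal.{0}} (h : μ ≤ μ') : Fl θ μ' ≤ Fl θ μ :=
  fun _ hs => mem_Fl.2 fun U hU => mem_Fl.1 hs U fun h' => hU (h'.mono h)

lemma Fm_le {μ l : Cardinal.{0}} (h : μ < l) : Fm θ l ≤ Fl θ μ := biInf_le _ h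

lemma mem_Fm {l : Cardinal.{0}} (hl : 0 < l) {s : Set ℕ} :
    s ∈ Fm θ l ↔ ∃ μ < l, s ∈ Fl θ μ := by
  unfold Fm
  rw [mem_biInf_of_directed]
  · rfl
  · intro a ha b hb
    exact ⟨max a b, mem_Iio.2 (max_lt ha hb), Fl_anti (le_max_left _ _), Fl_anti (le_max_right _ _)⟩
  · exact ⟨0, hl⟩

lemma Prog.zero (h : Prog σ θ) : InP θ 0 := fun n => by
  simpa using (h n).1.pos

lemma Prog.succ (h : Prog σ θ) {f : ℕ → Ordinal.{0}} (hf : InP θ f) : InP θ fun n => f n + 1 :=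
  fun n => (isSuccLimit_ord (h n).1.aleph0_le).add_one_lt (hf n)

lemma InP.max {f g : ℕ → Ordinal.{0}} (hf : InP θ f) (hg : InP θ g) :
    InP θ fun n => max (f n) (g n) := fun n => max_lt (hf n) (hg n)

/-- Pointwise strict supremum. -/
noncomputable def supf {ι : Type u} (g : ι → ℕ → Ordinal.{0}) (n : ℕ) : Ordinal.{0} :=
  ⨆ i, g i n + 1

lemma supf_le {ι : Type u} {g : ι → ℕ → Ordinal.{0}} {n : ℕ} {a : Ordinal.{0}}
    (h : ∀ i, g i n < a) : supf g n ≤ a :=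
  ciSup_le' fun i => Order.add_one_le_iff.2 (h i)

lemma lt_supf {ι : Type u} {g : ι → ℕ → Ordinal.{0}} (hg : ∀ i, InP θ (g i)) (i : ι) (n : ℕ) :
    g i n < supf g n := by
  refine (Order.lt_add_one_iff.2 le_rfl).trans_le
    (le_ciSup (f := fun i => g i n + 1) ⟨(θ n).ord, ?_⟩ i)
  rintro _ ⟨b, rfl⟩
  exact Order.add_one_le_iff.2 (hg b n)

lemma Prog.supf (h : Prog σ θ) {ι : Type u} (hι : Cardinal.lift.{0} #ι ≤ Cardinal.lift.{u} σ)
    {g : ι → ℕ → Ordinal.{0}} (hg : ∀ i, InP θ (g i)) : InP θ (supf g) := by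
  intro n
  refine Ordinal.lift_iSup_add_one_lt_of_lt_cof ?_ (fun i => hg i n)
  rw [← Ordinal.lift_cof, (h n).1.cof_ord]
  exact hι.trans_lt (lift_lt.2 (h n).2)

lemma Prog.bound (h : Prog σ θ) {β : Ordinal.{0}} (hβ : β.card ≤ σ)
    {f : Ordinal.{0} → ℕ → Ordinal.{0}} (hf : ∀ α < β, InP θ (f α)) :
    ∃ g, InP θ g ∧ ∀ α < β, ∀ n, f α n < g n := by
  refine ⟨S.supf fun a : Iio β => f a.1, h.supf ?_ fun a => hf a.1 a.2, fun α hα n =>
    lt_supf (g := fun a : Iio β => f a.1) (fun a => hf a.1 a.2) ⟨α, hα⟩ n⟩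
  rw [mk_Iio_ordinal, lift_lift]
  exact lift_le.2 hβ

/-- The well order `ω₁`. -/
abbrev T1 : Type := (ℵ_ 1 : Cardinal.{0}).ord.ToType

instance : IsRegularCardinalOrder T1 := isRegularCardinalOrder_toType isRegular_aleph_one

lemma mk_T1 : #T1 = ℵ_ 1 := mk_ord_toType _

lemma no_chain (A : T1 → Set ℕ) (hA : Monotone A) (U : T1 → Ultrafilter ℕ)
    (h1 : ∀ i, A i ∉ U i) (h2 : ∀ i j, i < j → A j ∈ U i) : False := by
  classical
  have hT : ℵ₀ < #T1 := mk_T1 ▸ aleph0_lt_aleph_one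
  have hne : Nonempty T1 := mk_ne_zero_iff.1 (aleph0_pos.trans hT).ne'
  have : ∀ n, ∃ i, (∃ j, n ∈ A j) → n ∈ A i := by
    intro n
    by_cases h : ∃ j, n ∈ A j
    · obtain ⟨j, hj⟩ := h
      exact ⟨j, fun _ => hj⟩
    · exact ⟨Classical.arbitrary _, fun h' => absurd h' h⟩
  choose f hf using this
  obtain ⟨b, hb⟩ := exists_gt_of_countable hT (countable_range f)
  obtain ⟨c, hc⟩ := exists_gt' hT.le b
  refine h1 b (mem_of_superset (h2 b c hc) fun n hn => ?_)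
  exact hA (hb _ ⟨n, rfl⟩).le (hf n ⟨c, hn⟩)

lemma not_cofLe_bound (h : Prog σ θ) {U : Ultrafilter ℕ} {μ : Cardinal.{0}} (hU : ¬ CofLe θ U μ)
    {β : Ordinal.{0}} (hβ : β.card ≤ μ) {f : Ordinal.{0} → ℕ → Ordinal.{0}}
    (hf : ∀ α < β, InP θ (f α)) : ∃ g, InP θ g ∧ ∀ α < β, ∀ᶠ n in U, f α n < g n := by
  classical
  obtain ⟨E, G, hE⟩ := exists_enum_ord
  by_contra! hcon
  refine hU ⟨fun γ => if E β γ < β then f (E β γ) else 0, fun γ => ?_, fun g hg => ?_⟩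
  · beta_reduce
    split_ifs with h'
    · exact hf _ h'
    · exact h.zero
  · obtain ⟨α, hα, h'⟩ := hcon g hg
    refine ⟨G β α, (hE β α hα).1.trans_le (ord_le_ord.2 hβ), ?_⟩
    simp only [(hE β α hα).2, hα, if_true]
    exact h'

lemma exists_ord_bound {β : Ordinal.{0}} (hβ : ℵ_ 1 < β.cof) (a : T1 → Ordinal.{0})
    (ha : ∀ i, a i < β) : ∃ b < β, ∀ i, a i ≤ b :=
  ⟨⨆ i, a i, Ordinal.iSup_lt_of_lt_cof (mk_T1 ▸ hβ) ha, fun i => Ordinal.le_iSup a i⟩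

lemma mk_Iio_T1 (hσ : ℵ_ 1 ≤ σ) (i : T1) :
    Cardinal.lift.{0} #(Iio i) ≤ Cardinal.lift.{0} σ :=
  lift_le.2 ((mk_set_le _).trans (mk_T1.le.trans hσ))

lemma dir_reg (h : Prog σ θ) (hσ : ℵ_ 1 ≤ σ) {μ : Cardinal.{0}} {β : Ordinal.{0}}
    (hβ : ℵ_ 1 < β.cof) (hμ : β.card ≤ μ) {f : Ordinal.{0} → ℕ → Ordinal.{0}}
    (hf : ∀ α < β, InP θ (f α))
    (hinc : ∀ α α', α ≤ α' → α' < β → ∀ᶠ n in Fl θ μ, f α n ≤ f α' n) :
    ∃ g, InP θ g ∧ ∀ α < β, ∀ᶠ n in Fl θ μ, f α n ≤ g n := by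
  by_contra! hcon
  have h1 : ∀ g, InP θ g → ∃ α < β, ∃ U : Ultrafilter ℕ, ¬ CofLe θ U μ ∧
      (∀ᶠ n in U, g n < f α n) ∧ ∃ k, InP θ k ∧ ∀ α < β, ∀ᶠ n in U, f α n < k n := by
    intro g hg
    obtain ⟨α, hα, h'⟩ := hcon g hg
    have : ¬ ∀ᶠ n in Fl θ μ, f α n ≤ g n := by
      intro h''
      obtain ⟨n, h3, h4⟩ := (h'.and_eventually h'').exists
      exact h3.not_ge h4
    rw [Filter.Eventually, mem_Fl] at this
    push Not at this
    obtain ⟨U, hU, hU'⟩ := this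
    refine ⟨α, hα, U, hU, ?_, not_cofLe_bound h hU hμ hf⟩
    have := Ultrafilter.compl_mem_iff_notMem.2 hU'
    filter_upwards [this] with n hn using not_le.1 hn
  have : Inhabited (Ultrafilter ℕ) := ⟨pure 0⟩
  choose! a ha U hU hU1 k hk hk1 using h1
  obtain ⟨G, hG⟩ := exists_rec (S := T1) (β := ℕ → Ordinal.{0})
    (fun i m => supf fun j : Iio i => k (m j.1)) (fun i m m' hmm => by
      congr 1
      funext j
      rw [hmm j.1 j.2])
  have hGP : ∀ i, InP θ (G i) := by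
    intro i
    induction i using WellFoundedLT.induction with
    | ind i IH =>
    rw [hG i]
    exact h.supf (mk_Iio_T1 hσ i) fun j => hk _ (IH j.1 j.2)
  have hlt : ∀ i j, j < i → ∀ n, k (G j) n < G i n := by
    intro i j hj n
    rw [hG i]
    exact lt_supf (g := fun j : Iio i => k (G j.1)) (fun j => hk _ (hGP _)) ⟨j, hj⟩ n
  obtain ⟨b, hb, hab⟩ := exists_ord_bound hβ (fun i => a (G i)) fun i => ha _ (hGP i)
  refine no_chain (fun i => {n | f b n ≤ G i n}) (fun i j hij n hn => ?_) (fun i => U (G i))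
    (fun i hi => ?_) (fun i j hij => ?_)
  · refine le_trans (show f b n ≤ G i n from hn) ?_
    rw [hG i]
    exact supf_le fun l => hlt j l.1 (l.2.trans_le hij) n
  · have h3 := (le_Fl (hU _ (hGP i))) (hinc _ _ (hab i) hb)
    obtain ⟨n, h4, h5, h6⟩ := ((hU1 _ (hGP i)).and
      (Filter.Eventually.and (f := (U (G i) : Filter ℕ)) h3 hi)).exists
    exact (h4.trans_le h5).not_ge h6
  · filter_upwards [hk1 _ (hGP i) b hb] with n hn using (hn.trans (hlt j i hij n)).le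

lemma exists_incr (F : Filter ℕ) {β : Ordinal.{0}}
    (hdir : ∀ γ < β, ∀ f : Ordinal.{0} → ℕ → Ordinal.{0}, (∀ α < γ, InP θ (f α)) →
      ∃ g, InP θ g ∧ ∀ α < γ, ∀ᶠ n in F, f α n ≤ g n)
    {f : Ordinal.{0} → ℕ → Ordinal.{0}} (hf : ∀ α < β, InP θ (f α)) :
    ∃ f' : Ordinal.{0} → ℕ → Ordinal.{0}, (∀ α < β, InP θ (f' α)) ∧
      (∀ α n, f α n ≤ f' α n) ∧ ∀ α α', α ≤ α' → α' < β → ∀ᶠ n in F, f' α n ≤ f' α' n := by
  classical
  choose! bd hbd1 hbd2 using hdir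
  obtain ⟨G, hG⟩ := exists_rec (S := Ordinal.{0}) (β := ℕ → Ordinal.{0})
    (fun γ m n => max (f γ n) (bd γ (fun α => if α < γ then m α else 0) n)) (fun γ m m' hmm => by
      have : (fun α => if α < γ then m α else 0) = fun α => if α < γ then m' α else 0 := by
        funext α
        split_ifs with h
        · exact hmm α h
        · rfl
      rw [this])
  have hP : ∀ α < β, InP θ (G α) := by
    intro γ
    induction γ using WellFoundedLT.induction with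
    | ind γ IH =>
    intro hγ
    rw [hG γ]
    refine (hf γ hγ).max (hbd1 γ hγ _ fun α hα => ?_)
    simp only [hα, if_true]
    exact IH α hα (hα.trans hγ)
  refine ⟨G, hP, fun α n => ?_, fun α α' h1 h2 => ?_⟩
  · rw [hG α]
    exact le_max_left _ _
  · rcases h1.eq_or_lt with rfl | h1
    · exact Eventually.of_forall fun _ => le_rfl
    have := hbd2 α' h2 (fun a => if a < α' then G a else 0) (fun a ha => by
      simp only [ha, if_true]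
      exact hP a (ha.trans h2)) α h1
    simp only [h1, if_true] at this
    filter_upwards [this] with n hn
    rw [hG α']
    exact hn.trans (le_max_right _ _)

lemma exists_cofinal : ∃ F Z : Ordinal.{0} → Ordinal.{0} → Ordinal.{0},
    (∀ β, ∀ ζ < β.cof.ord, F β ζ < β) ∧
      ∀ β, ∀ a < β, Z β a < β.cof.ord ∧ a ≤ F β (Z β a) := by
  classical
  have h : ∀ β : Ordinal.{0}, ∃ F : Ordinal.{0} → Ordinal.{0}, (∀ ζ < β.cof.ord, F ζ < β) ∧
      ∀ a < β, ∃ ζ < β.cof.ord, a ≤ F ζ := by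
    intro β
    obtain ⟨f, hf⟩ := Ordinal.exists_isFundamentalSeq (o := β) rfl
    refine ⟨fun ζ => if h : ζ < β.cof.ord then (f ⟨ζ, h⟩).1 else 0, fun ζ hζ => ?_,
      fun a ha => ?_⟩
    · simp only [hζ, dif_pos]
      exact (f ⟨ζ, hζ⟩).2
    · obtain ⟨_, ⟨ζ, rfl⟩, h⟩ := hf.isCofinal_range ⟨a, ha⟩
      refine ⟨ζ.1, ζ.2, ?_⟩
      have : ζ.1 < β.cof.ord := ζ.2
      simp only [this, dif_pos]
      exact h
  choose F h1 h2 using h
  choose! Z h3 h4 using h2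
  exact ⟨F, Z, h1, fun β a ha => ⟨h3 β a ha, h4 β a ha⟩⟩

theorem directed (h : Prog σ θ) (hσ : ℵ_ 1 ≤ σ) (μ : Cardinal.{0}) (β : Ordinal.{0}) :
    β.card ≤ μ → ∀ f : Ordinal.{0} → ℕ → Ordinal.{0}, (∀ α < β, InP θ (f α)) →
      ∃ g, InP θ g ∧ ∀ α < β, ∀ᶠ n in Fl θ μ, f α n ≤ g n := by
  induction β using WellFoundedLT.induction with
  | ind β IH =>
  intro hβ f hf
  obtain ⟨f', h1, h2, h3⟩ := exists_incr (Fl θ μ)
    (fun γ hγ => IH γ hγ ((Ordinal.card_le_card hγ.le).trans hβ)) hf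
  suffices ∃ g, InP θ g ∧ ∀ α < β, ∀ᶠ n in Fl θ μ, f' α n ≤ g n by
    obtain ⟨g, hg, h4⟩ := this
    exact ⟨g, hg, fun α hα => (h4 α hα).mono fun n hn => (h2 α n).trans hn⟩
  rcases lt_or_ge (ℵ_ 1) β.cof with hc | hc
  · exact dir_reg h hσ hc hβ h1 h3
  · obtain ⟨F, Z, hF, hZ⟩ := exists_cofinal
    obtain ⟨g, hg, h4⟩ := h.bound (β := β.cof.ord) (by rw [card_ord]; exact hc.trans hσ)
      (f := fun ζ => f' (F β ζ)) fun ζ hζ => h1 _ (hF β ζ hζ)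
    refine ⟨g, hg, fun α hα => ?_⟩
    filter_upwards [h3 α _ (hZ β α hα).2 (hF β _ (hZ β α hα).1)] with n hn
    exact hn.trans (h4 _ (hZ β α hα).1 n).le

lemma directed' (h : Prog σ θ) (hσ : ℵ_ 1 ≤ σ) {l : Cardinal.{0}} :
    ∀ β < l.ord, ∀ f : Ordinal.{0} → ℕ → Ordinal.{0}, (∀ α < β, InP θ (f α)) →
      ∃ g, InP θ g ∧ ∀ α < β, ∀ᶠ n in Fm θ l, f α n ≤ g n := by
  intro β hβ f hf
  obtain ⟨g, hg, h1⟩ := directed h hσ β.card β le_rfl f hf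
  exact ⟨g, hg, fun α hα => Fm_le (lt_ord.1 hβ) (h1 α hα)⟩

/-- A universal sequence for `l`. -/
def Univ (θ : ℕ → Cardinal.{0}) (l : Cardinal.{0}) (f : Ordinal.{0} → ℕ → Ordinal.{0}) : Prop :=
  (∀ α < l.ord, InP θ (f α)) ∧
    (∀ α α', α ≤ α' → α' < l.ord → ∀ᶠ n in Fm θ l, f α n ≤ f α' n) ∧
    ∀ U : Ultrafilter ℕ, (U : Filter ℕ) ≤ Fm θ l → CofLe θ U l →
      ∀ g, InP θ g → ∃ α < l.ord, ∀ᶠ n in U, g n ≤ f α n

theorem exists_univ (h : Prog σ θ) (hσ : ℵ_ 1 ≤ σ) {l : Cardinal.{0}} (hl : ℵ_ 1 < l.ord.cof) :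
    ∃ f, Univ θ l f := by
  by_contra! hcon
  have h1 : ∀ f : Ordinal.{0} → ℕ → Ordinal.{0}, (∀ α < l.ord, InP θ (f α)) →
      ∃ f' : Ordinal.{0} → ℕ → Ordinal.{0}, (∀ α < l.ord, InP θ (f' α)) ∧
      (∀ α n, f α n ≤ f' α n) ∧
      (∀ α α', α ≤ α' → α' < l.ord → ∀ᶠ n in Fm θ l, f' α n ≤ f' α' n) ∧
      ∃ U : Ultrafilter ℕ, (U : Filter ℕ) ≤ Fm θ l ∧
        ∃ c : Ordinal.{0} → ℕ → Ordinal.{0}, (∀ α, InP θ (c α)) ∧
          (∀ g, InP θ g → ∃ α < l.ord, ∀ᶠ n in U, g n ≤ c α n) ∧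
          ∃ k, InP θ k ∧ ∀ α < l.ord, ∀ᶠ n in U, f' α n < k n := by
    intro f hf
    obtain ⟨f', h1, h2, h3⟩ := exists_incr (Fm θ l) (directed' h hσ) hf
    have h4 := hcon f'
    unfold Univ at h4
    push Not at h4
    obtain ⟨U, hU, ⟨c, hc1, hc2⟩, k, hk, h5⟩ := h4 h1 h3
    exact ⟨f', h1, h2, h3, U, hU, c, hc1, hc2, k, hk, h5⟩
  have : Inhabited (Ultrafilter ℕ) := ⟨pure 0⟩
  choose! p hp1 hp2 hp3 U hU c hc1 hc2 k hk hk1 using h1
  obtain ⟨G, hG⟩ := exists_rec (S := T1) (β := Ordinal.{0} → ℕ → Ordinal.{0})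
    (fun i m α => supf fun j : Iio i => fun n => max (p (m j.1) α n) (c (m j.1) α n))
    (fun i m m' hmm => by
      funext α
      congr 1
      funext j
      rw [hmm j.1 j.2])
  have hGP : ∀ i, ∀ α < l.ord, InP θ (G i α) := by
    intro i
    induction i using WellFoundedLT.induction with
    | ind i IH =>
    intro α hα
    rw [hG i]
    exact h.supf (mk_Iio_T1 hσ i) fun j => (hp1 _ (IH j.1 j.2) α hα).max (hc1 _ (IH j.1 j.2) α)
  have hlt : ∀ i j, j < i → ∀ α < l.ord, ∀ n,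
      max (p (G j) α n) (c (G j) α n) < p (G i) α n := by
    intro i j hj α hα n
    refine lt_of_lt_of_le ?_ (hp2 _ (hGP i) α n)
    rw [hG i]
    exact lt_supf (g := fun j : Iio i => fun n => max (p (G j.1) α n) (c (G j.1) α n))
      (fun j => (hp1 _ (hGP _) α hα).max (hc1 _ (hGP _) α)) ⟨j, hj⟩ n
  have hkP : InP θ (supf fun i => k (G i)) :=
    h.supf (lift_le.2 (mk_T1.le.trans hσ)) fun i => hk _ (hGP i)
  choose a ha ha' using fun i => hc2 _ (hGP i) _ hkP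
  obtain ⟨b, hb, hab⟩ := exists_ord_bound hl a ha
  refine no_chain (fun i => {n | supf (fun i => k (G i)) n ≤ p (G i) b n})
    (fun i j hij n hn => ?_) (fun i => U (G i)) (fun i hi => ?_) (fun i j hij => ?_)
  · rcases hij.eq_or_lt with rfl | hij
    · exact hn
    · exact le_trans hn ((le_max_left _ _).trans (hlt j i hij b hb n).le)
  · obtain ⟨n, h4, h5⟩ := ((hk1 _ (hGP i) b hb).and
      (show ∀ᶠ n in (U (G i) : Filter ℕ), _ from hi)).exists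
    exact (h4.trans (lt_supf (g := fun i => k (G i)) (fun i => hk _ (hGP i)) i n)).not_ge h5
  · filter_upwards [ha' i, hU _ (hGP i) (hp3 _ (hGP j) _ _ (hab i) hb)] with n h4 h5
    exact h4.trans (((le_max_right _ _).trans (hlt j i hij _ (ha i) n).le).trans h5)

/-- The least `μ` such that `X` forces cofinality at most `μ`. -/
noncomputable def lam (θ : ℕ → Cardinal.{0}) (X : Set ℕ) : Cardinal.{0} := sInf {μ | Xᶜ ∈ Fl θ μ}

section lam

variable {κ : Cardinal.{0}} (hκ : ∀ U : Ultrafilter ℕ, CofLe θ U κ)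
include hκ

lemma lam_mem (X : Set ℕ) : Xᶜ ∈ Fl θ (lam θ X) :=
  csInf_mem (s := {μ | Xᶜ ∈ Fl θ μ}) ⟨κ, mem_Fl.2 fun U hU => absurd (hκ U) hU⟩

lemma lam_le (X : Set ℕ) : lam θ X ≤ κ :=
  csInf_le' (show Xᶜ ∈ Fl θ κ from mem_Fl.2 fun U hU => absurd (hκ U) hU)

lemma cofLe_lam {X : Set ℕ} {U : Ultrafilter ℕ} (hX : X ∈ U) : CofLe θ U (lam θ X) := by
  by_contra hU
  exact Ultrafilter.compl_mem_iff_notMem.1 (mem_Fl.1 (lam_mem hκ X) U hU) hX

lemma lt_lam (h : Prog σ θ) {X : Set ℕ} (hX : X.Nonempty) : σ < lam θ X := by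
  obtain ⟨n, hn⟩ := hX
  by_contra! hle
  obtain ⟨c, h1, h2⟩ := cofLe_lam hκ (U := pure n) (X := X) hn
  obtain ⟨g, hg, h3⟩ := h.bound (β := (lam θ X).ord) (by rwa [card_ord]) fun α _ => h1 α
  obtain ⟨α, hα, h4⟩ := h2 g hg
  obtain ⟨m, hm⟩ := h4.exists
  exact (h3 α hα m).not_ge hm

omit hκ in
lemma lam_lt {l : Cardinal.{0}} (hl : 0 < l) {X : Set ℕ} (hX : Xᶜ ∈ Fm θ l) : lam θ X < l := by
  obtain ⟨μ, hμ, h⟩ := (mem_Fm hl).1 hX
  exact (csInf_le' (show μ ∈ {μ | Xᶜ ∈ Fl θ μ} from h)).trans_lt hμ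

lemma lam_regular (h : Prog σ θ) (hσ : ℵ_ 1 ≤ σ) {X : Set ℕ} (hX : X.Nonempty) :
    (lam θ X).IsRegular := by
  have h0 := lt_lam hκ h hX
  have h1 : ℵ₀ ≤ lam θ X := ((aleph0_le_aleph 1).trans hσ).trans h0.le
  refine ⟨h1, ?_⟩
  by_contra! hc
  have h2 : Xᶜ ∉ Fm θ (lam θ X) := fun h' => lt_irrefl _ (lam_lt (aleph0_pos.trans_le h1) h')
  have : (Fm θ (lam θ X) ⊓ 𝓟 X).NeBot := by
    rw [inf_principal_neBot_iff]
    intro V hV
    by_contra! hne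
    refine h2 (mem_of_superset hV fun n hn hn' => ?_)
    exact (eq_empty_iff_forall_notMem.1 hne n) ⟨hn, hn'⟩
  let U := Ultrafilter.of (Fm θ (lam θ X) ⊓ 𝓟 X)
  have hU1 : (U : Filter ℕ) ≤ Fm θ (lam θ X) := (Ultrafilter.of_le _).trans inf_le_left
  have hU2 : X ∈ U := ((Ultrafilter.of_le _).trans inf_le_right) (mem_principal_self X)
  obtain ⟨c, hc1, hc2⟩ := cofLe_lam hκ hU2
  obtain ⟨F, Z, hF, hZ⟩ := exists_cofinal
  have hlim := isSuccLimit_ord h1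
  choose! b hb1 hb2 using fun ζ (hζ : ζ < (lam θ X).ord.cof.ord) =>
    directed' h hσ _ (hlim.add_one_lt (hF _ ζ hζ)) c fun α _ => hc1 α
  obtain ⟨g, hg, h3⟩ := directed' h hσ _ (ord_lt_ord.2 hc) b hb1
  obtain ⟨α, hα, h4⟩ := hc2 _ (h.succ hg)
  obtain ⟨h5, h6⟩ := hZ _ α hα
  obtain ⟨n, h7, h8, h9⟩ := (h4.and (Filter.Eventually.and (f := (U : Filter ℕ))
    (hU1 (hb2 _ h5 α (Order.lt_add_one_iff.2 h6))) (hU1 (h3 _ h5)))).exists
  exact (Order.lt_add_one_iff.2 le_rfl).not_ge (h7.trans (h8.trans h9))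

lemma exists_wit {X : Set ℕ} {f : Ordinal.{0} → ℕ → Ordinal.{0}} (hf : Univ θ (lam θ X) f)
    (hl : 0 < lam θ X) {g : ℕ → Ordinal.{0}} (hg : InP θ g) :
    ∃ α < (lam θ X).ord, ∀ᶠ n in Fm θ (lam θ X), n ∈ X → g n ≤ f α n := by
  by_contra! hcon
  let F : Filter ℕ :=
    { sets := {s | ∃ α < (lam θ X).ord, ∀ᶠ n in Fm θ (lam θ X), n ∈ X → f α n < g n → n ∈ s}
      univ_sets := ⟨0, by simpa using hl, Eventually.of_forall fun _ _ _ => trivial⟩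
      sets_of_superset := by
        rintro s t ⟨α, hα, h⟩ hst
        exact ⟨α, hα, h.mono fun n hn h1 h2 => hst (hn h1 h2)⟩
      inter_sets := by
        rintro s t ⟨α, hα, h⟩ ⟨α', hα', h'⟩
        refine ⟨max α α', max_lt hα hα', ?_⟩
        filter_upwards [h, h', hf.2.1 α _ (le_max_left _ α') (max_lt hα hα'),
          hf.2.1 α' _ (le_max_right α _) (max_lt hα hα')] with n h1 h2 h3 h4 h5 h6
        exact ⟨h1 h5 (h3.trans_lt h6), h2 h5 (h4.trans_lt h6)⟩ }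
  have : F.NeBot := by
    rw [← forall_mem_nonempty_iff_neBot]
    rintro s ⟨α, hα, h⟩
    obtain ⟨n, ⟨h1, h2⟩, h3⟩ := ((hcon α hα).and_eventually h).exists
    exact ⟨n, h3 h1 h2⟩
  let U := Ultrafilter.of F
  have h0 : (0 : Ordinal.{0}) < (lam θ X).ord := by simpa using hl
  have hU1 : (U : Filter ℕ) ≤ Fm θ (lam θ X) := fun s hs =>
    Ultrafilter.of_le F ⟨0, h0, mem_of_superset hs fun n hn _ _ => hn⟩
  have hU2 : X ∈ U := Ultrafilter.of_le F ⟨0, h0, Eventually.of_forall fun n hn _ => hn⟩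
  obtain ⟨α, hα, h1⟩ := hf.2.2 U hU1 (cofLe_lam hκ hU2) g hg
  have h2 : ∀ᶠ n in (U : Filter ℕ), f α n < g n :=
    Ultrafilter.of_le F ⟨α, hα, Eventually.of_forall fun n _ hn => hn⟩
  obtain ⟨n, h3, h4⟩ := (h1.and h2).exists
  exact h4.not_ge h3

end lam

end Pool.Agent.Work.MP_d02fb9_lc.S
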