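import Pool.Agent.Work.MP_d02fb9_lc.S.Classes
import Pool.Agent.Work.MP_d02fb9_lc.S.Hull
import Pool.Agent.Work.MP_d02fb9_lc.S.AG

/-!
Pieces of families of functions, diagonal intersections and small cofinal families.
-/

namespace Pool.Agent.Work.MP_d02fb9_lc.S

open Cardinal Set Order Filter Pool.Agent.Lib.ClubGuess

lemma locDom_le {Y F : Set (ℕ → ℕ)} (h : ∀ g ∈ Y, ∃ f ∈ F, Dom g f) : locDom Y ≤ #F :=
  csInf_le' ⟨F, h, rfl⟩

lemma exists_pieces : ∃ (pc : Set (ℕ → ℕ) → Ordinal.{0} → Set (ℕ → ℕ))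
    (top : Set (ℕ → ℕ) → ℕ → ℕ) (pos : (ℕ → ℕ) → Set (ℕ → ℕ) → Ordinal.{0}), ∀ Y,
      (locDom Y ≤ ℵ₀ → ∀ y ∈ Y, Dom y (top Y)) ∧
      (ℵ₀ < locDom Y → (∀ η < (locDom Y).ord.cof.ord, locDom (pc Y η) < locDom Y) ∧
        (∀ η η', η ≤ η' → pc Y η ⊆ pc Y η') ∧
        ∀ y ∈ Y, pos y Y < (locDom Y).ord.cof.ord ∧ y ∈ pc Y (pos y Y)) := by
  have h1 : ∀ Y : Set (ℕ → ℕ), ∃ top : ℕ → ℕ, locDom Y ≤ ℵ₀ → ∀ y ∈ Y, Dom y top := by
    intro Y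
    by_cases h : locDom Y ≤ ℵ₀
    · obtain ⟨F, hF, hc⟩ := exists_locDom Y
      obtain ⟨g, hg⟩ := exists_dom_of_countable (le_aleph0_iff_set_countable.1 (hc.le.trans h))
      refine ⟨g, fun _ y hy => ?_⟩
      obtain ⟨f, hf, h1⟩ := hF y hy
      exact h1.trans (hg f hf)
    · exact ⟨0, fun h' => absurd h' h⟩
  have h2 : ∀ Y : Set (ℕ → ℕ), ∃ pc : Ordinal.{0} → Set (ℕ → ℕ), ℵ₀ < locDom Y →
      (∀ η < (locDom Y).ord.cof.ord, locDom (pc η) < locDom Y) ∧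
        (∀ η η', η ≤ η' → pc η ⊆ pc η') ∧
        ∀ y ∈ Y, ∃ η < (locDom Y).ord.cof.ord, y ∈ pc η := by
    intro Y
    obtain ⟨F, hF, hc⟩ := exists_locDom Y
    obtain ⟨f, hf⟩ := exists_enum (κ := locDom Y) F (lift_le.2 hc.le)
    obtain ⟨u, Z, hu, hZ⟩ := exists_cofinal
    refine ⟨fun η => {y | ∃ ζ ≤ η, ∃ γ ≤ u (locDom Y).ord ζ, Dom y (f γ)}, fun h0 => ⟨?_, ?_, ?_⟩⟩
    · intro η hη
      have hlim := isSuccLimit_ord h0.le
      have hc0 : ℵ₀ ≤ (locDom Y).ord.cof := (isRegular_cof hlim).aleph0_le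
      have hη' := (isSuccLimit_ord hc0).add_one_lt hη
      have h3 : ⨆ ζ : Iio (η + 1), u (locDom Y).ord ζ.1 + 1 < (locDom Y).ord := by
        refine Ordinal.lift_iSup_add_one_lt_of_lt_cof ?_ (fun ζ => hu _ _ (ζ.2.trans hη'))
        rw [← Ordinal.lift_cof, mk_Iio_ordinal, lift_lift]
        exact lift_lt.2 (lt_ord.1 hη')
      refine (locDom_le (F := f '' Iio (⨆ ζ : Iio (η + 1), u (locDom Y).ord ζ.1 + 1)) ?_).trans_lt ?_
      · rintro y ⟨ζ, hζ, γ, hγ, hy⟩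
        refine ⟨_, ⟨γ, (Order.lt_add_one_iff.2 hγ).trans_le ?_, rfl⟩, hy⟩
        exact Ordinal.le_iSup (fun ζ : Iio (η + 1) => u (locDom Y).ord ζ.1 + 1)
          ⟨ζ, Order.lt_add_one_iff.2 hζ⟩
      · have h4 := mk_image_le_lift (f := f)
          (s := Iio (⨆ ζ : Iio (η + 1), u (locDom Y).ord ζ.1 + 1))
        rw [mk_Iio_ordinal, lift_lift] at h4
        exact (lift_le.1 h4).trans_lt (lt_ord.1 h3)
    · rintro η η' h y ⟨ζ, hζ, h'⟩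
      exact ⟨ζ, hζ.trans h, h'⟩
    · intro y hy
      obtain ⟨g, hg, h3⟩ := hF y hy
      obtain ⟨γ, hγ, rfl⟩ := hf g hg
      exact ⟨_, (hZ _ γ hγ).1, _, le_rfl, γ, (hZ _ γ hγ).2, h3⟩
  choose top htop using h1
  choose pc hpc using h2
  choose! pos hpos using fun Y h => (hpc Y h).2.2
  exact ⟨pc, top, fun y Y => pos Y y, fun Y => ⟨htop Y, fun h =>
    ⟨(hpc Y h).1, (hpc Y h).2.1, hpos Y h⟩⟩⟩

lemma exists_diag {S : Type} [LinearOrder S] [WellFoundedLT S] [IsRegularCardinalOrder S]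
    (hS : ℵ₀ < #S) (E : S → Set S) (hE : ∀ y, IsClub (E y)) :
    ∃ D : Set S, IsClub D ∧ ∀ k ∈ D, ∀ y < k, k ∈ E y := by
  have h1 : ∀ y, ∃ z, y ≤ z ∧ ∀ y' ≤ y, z ∈ E y' := by
    intro y
    have : IsClub (⋂ y' : Iic y, E y'.1) := by
      refine IsClub.iInter (cof_ne_aleph0 hS) ?_ fun y' => hE _
      rw [cof_eq_cardinalMk, lift_id, lift_id]
      exact mk_Iic_lt hS.le y
    obtain ⟨z, hz, h⟩ := this.isCofinal y
    exact ⟨z, h, fun y' hy' => mem_iInter.1 hz ⟨y', hy'⟩⟩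
  choose φ h1 h2 using h1
  obtain ⟨D, hD, hD'⟩ := exists_club_lim hS φ
  refine ⟨D, hD, fun k hk y hy => (hE y).isLUB_mem (t := φ '' Ico y k) ?_
    ⟨_, y, ⟨le_rfl, hy⟩, rfl⟩ ⟨?_, fun c hc => ?_⟩⟩
  · rintro _ ⟨z, hz, rfl⟩
    exact h2 z y hz.1
  · rintro _ ⟨z, hz, rfl⟩
    exact ((hD' k hk).2 z hz.2).le
  · by_contra! hlt
    obtain ⟨z, hz1, hz2⟩ := (hD' k hk).1.isSuccPrelimit.lt_iff_exists_lt.1 (max_lt hlt hy)
    exact ((le_max_left c y).trans_lt hz2).not_ge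
      ((h1 z).trans (hc ⟨z, ⟨(le_max_right c y).trans hz2.le, hz1⟩, rfl⟩))

lemma exists_small_family {μ : Cardinal.{0}} (hμ : ℵ₀ ≤ μ) : ∃ V : Type, #V ≤ succ (succ μ) ∧
    ∀ (α : Type) [Nonempty α] (X : Set α), #X ≤ succ (succ μ) → ∃ v : V → Set α,
      (∀ r, #(v r) ≤ μ) ∧ (∀ r, v r ⊆ X) ∧ ∀ s ⊆ X, #s ≤ μ → ∃ r, s ⊆ v r := by
  have hμ1 : ℵ₀ ≤ succ μ := hμ.trans (le_succ μ)
  have hμ2 : ℵ₀ ≤ succ (succ μ) := hμ1.trans (le_succ _)
  let T := (succ μ).ord.ToType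
  let R := (succ (succ μ)).ord.ToType
  have : IsRegularCardinalOrder T := isRegularCardinalOrder_toType (isRegular_succ hμ)
  have : IsRegularCardinalOrder R := isRegularCardinalOrder_toType (isRegular_succ hμ1)
  have hT : #T = succ μ := mk_ord_toType _
  have hR : #R = succ (succ μ) := mk_ord_toType _
  have hRne : Nonempty R := mk_ne_zero_iff.1 (hR ▸ (aleph0_pos.trans_le hμ2).ne')
  refine ⟨R × T, ?_, fun α _ X hX => ?_⟩
  · rw [mk_prod, lift_id, lift_id, hR, hT]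
    exact (mul_le_mul' le_rfl (le_succ _)).trans (mul_eq_self hμ2).le
  obtain ⟨π, hπ⟩ := exists_surj (β := R) (s := X) (hR ▸ hX)
  have h1 : ∀ ξ : R, #(Iio ξ) ≤ #T := fun ξ =>
    (lt_succ_iff.1 ((mk_Iio_lt' ξ).trans_eq hR)).trans_eq hT.symm
  choose ψ hψ using fun ξ : R => exists_surj (h1 ξ)
  refine ⟨fun p => π '' (ψ p.1 '' Iio p.2) ∩ X, fun p => ?_, fun p => inter_subset_right,
    fun s hs hsc => ?_⟩
  · refine (mk_le_mk_of_subset inter_subset_left).trans (mk_image_le.trans (mk_image_le.trans ?_))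
    exact lt_succ_iff.1 ((mk_Iio_lt' p.2).trans_eq hT)
  · choose r hr using fun a : s => hπ a.1 (hs a.2)
    obtain ⟨ξ, hξ⟩ := exists_gt_of_mk_lt (s := range r)
      (mk_range_le.trans_lt (hsc.trans_lt (hR ▸ (lt_succ μ).trans (lt_succ _))))
    choose t ht using fun a : s => hψ ξ (r a) (hξ _ ⟨a, rfl⟩)
    obtain ⟨τ, hτ⟩ := exists_gt_of_mk_lt (s := range t)
      (mk_range_le.trans_lt (hsc.trans_lt (hT ▸ lt_succ μ)))
    exact ⟨(ξ, τ), fun a ha => ⟨⟨_, ⟨_, hτ _ ⟨⟨a, ha⟩, rfl⟩, ht _⟩, hr ⟨a, ha⟩⟩, hs ha⟩⟩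

lemma mk_iUnion_le0 {ι : Type} {α : Type 1} {f : ι → Set α} {ρ : Cardinal.{0}} (hρ : ℵ₀ ≤ ρ)
    (hι : #ι ≤ ρ) (hf : ∀ i, #(f i) ≤ Cardinal.lift.{1} ρ) :
    #(⋃ i, f i) ≤ Cardinal.lift.{1} ρ := by
  have h1 := mk_iUnion_le_lift f
  rw [lift_uzero] at h1
  refine h1.trans ((mul_le_mul' (b := Cardinal.lift.{1} ρ) (d := Cardinal.lift.{1} ρ)
    (lift_le.2 hι) (ciSup_le' fun j => ?_)).trans (mul_eq_self (by simpa using hρ)).le)
  rw [lift_uzero]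
  exact hf j

lemma list_bound {S : Type} [LinearOrder S] {N : S → Set Ordinal.{0}} (hN : Chain N) {k : S}
    (hk : IsSuccLimit k) {l : List Ordinal.{0}} (hl : ∀ a ∈ l, a ∈ N k) :
    ∃ j < k, ∀ a ∈ l, a ∈ N j := by
  induction l with
  | nil =>
    obtain ⟨j, hj⟩ := not_isMin_iff.1 hk.not_isMin
    exact ⟨j, hj, by simp⟩
  | cons a l ih =>
    obtain ⟨j, hj, h1⟩ := ih fun b hb => hl b (List.mem_cons_of_mem _ hb)
    obtain ⟨j', hj', h2⟩ := hN.cont k hk a (hl a List.mem_cons_self)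
    refine ⟨max j j', max_lt hj hj', fun b hb => ?_⟩
    rcases List.mem_cons.1 hb with rfl | hb
    · exact hN.mono (le_max_right _ _) h2
    · exact hN.mono (le_max_left _ _) (h1 b hb)

lemma cofLe_of_small {ι : Type} {R : ι → Set Cardinal.{0}} {κ : Cardinal.{0}}
    (hR : ∀ j, SmallProducts (R j) κ) (τ : Finset ι) (θ : ℕ → Cardinal.{0})
    (hθ : ∀ n, (θ n).IsRegular ∧ ∃ j ∈ τ, θ n ∈ R j) (U : Ultrafilter ℕ) : CofLe θ U κ := by
  classical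
  obtain ⟨j, -, hj⟩ : ∃ j ∈ (τ : Set ι), ∀ᶠ n in U, θ n ∈ R j :=
    (Ultrafilter.eventually_exists_mem_iff τ.finite_toSet).1
      (Eventually.of_forall fun n => (hθ n).2)
  obtain ⟨n₀, hn₀⟩ := hj.exists
  obtain ⟨F, h1, h2, h3⟩ := hR j (fun n => if θ n ∈ R j then θ n else θ n₀) U (fun n => by
    split_ifs with h
    · exact ⟨h, (hθ n).1⟩
    · exact ⟨hn₀, (hθ n₀).1⟩)
  obtain ⟨c, hc⟩ := exists_enum (κ := κ) F (by simpa using h1)
  have h0 : ∀ n, (0 : Ordinal.{0}) < (θ n).ord := fun n => by simpa using (hθ n).1.pos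
  refine ⟨fun α n => if c α n < (θ n).ord then c α n else 0, fun α n => ?_, fun g hg => ?_⟩
  · beta_reduce
    split_ifs with h
    · exact h
    · exact h0 n
  · obtain ⟨f, hf, h4⟩ := h3 (fun n => if θ n ∈ R j then g n else 0) (fun n => by
      split_ifs with h
      · exact hg n
      · exact h0 n₀)
    obtain ⟨α, hα, rfl⟩ := hc f hf
    refine ⟨α, hα, ?_⟩
    filter_upwards [hj, h4] with n h5 h6
    have h7 := h2 _ hf n
    simp only [h5, if_true] at h6 h7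
    simpa only [h7, if_true] using h6

end Pool.Agent.Work.MP_d02fb9_lc.S
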